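import Mathlib

open Metric Set Filter Topology

namespace Pool.Agent.Lib.MP_5011cf_an

/-- A square root of a nonvanishing holomorphic function on the disc. -/
lemma exists_sqrt {h : ℂ → ℂ} (hd : DifferentiableOn ℂ h (ball 0 1))
    (h0 : ∀ z ∈ ball (0 : ℂ) 1, h z ≠ 0) (h1 : h 0 = 1) :
    ∃ q : ℂ → ℂ, DifferentiableOn ℂ q (ball 0 1) ∧ q 0 = 1 ∧
      ∀ z ∈ ball (0 : ℂ) 1, q z ^ 2 = h z := by
  have hd' : DifferentiableOn ℂ (deriv h) (ball 0 1) := hd.deriv isOpen_ball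
  obtain ⟨G, hG⟩ := (hd'.div hd h0).isExactOn_ball
  have hzero : (0 : ℂ) ∈ ball (0 : ℂ) 1 := by simp
  refine ⟨fun z => Complex.exp ((G z - G 0) / 2), ?_, by simp, ?_⟩
  · intro z hz
    exact ((((hG z hz).differentiableAt.sub_const _).div_const _).cexp).differentiableWithinAt
  · intro z hz
    have hu : ∀ z ∈ ball (0 : ℂ) 1,
        HasDerivAt (fun z => h z * Complex.exp (-(G z - G 0))) 0 z := by
      intro z hz
      have e1 : HasDerivAt h (deriv h z) z :=
        (hd.differentiableAt (isOpen_ball.mem_nhds hz)).hasDerivAt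
      have e2 := (((hG z hz).sub_const (G 0)).fun_neg).cexp
      have e3 := e1.fun_mul e2
      have h00 := h0 z hz
      have e4 : deriv h z * Complex.exp (-(G z - G 0)) +
          h z * (Complex.exp (-(G z - G 0)) * -(deriv h / h) z) = 0 := by
        rw [Pi.div_apply]
        field_simp
        ring
      rw [e4] at e3
      exact e3
    have hconst := IsOpen.is_const_of_deriv_eq_zero (𝕜 := ℂ)
      (f := fun z => h z * Complex.exp (-(G z - G 0))) isOpen_ball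
      (convex_ball (0 : ℂ) 1).isPreconnected
      (fun z hz => (hu z hz).differentiableAt.differentiableWithinAt)
      (fun z hz => (hu z hz).deriv) hz hzero
    simp only [sub_self, neg_zero, Complex.exp_zero, mul_one, h1] at hconst
    rw [← Complex.exp_nat_mul]
    have e4 : ((2 : ℕ) : ℂ) * ((G z - G 0) / 2) = G z - G 0 := by push_cast; ring
    rw [e4]
    calc Complex.exp (G z - G 0)
        = (h z * Complex.exp (-(G z - G 0))) * Complex.exp (G z - G 0) := by rw [hconst, one_mul]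
      _ = h z := by rw [mul_assoc, ← Complex.exp_add]; simp

/-- An injective holomorphic function has nonvanishing derivative. -/
lemma deriv_ne_zero_of_injOn {f : ℂ → ℂ} {U : Set ℂ} (hU : IsOpen U)
    (hd : DifferentiableOn ℂ f U) (hinj : InjOn f U) {z₀ : ℂ} (hz : z₀ ∈ U) :
    deriv f z₀ ≠ 0 := by
  intro hder
  have hUn : U ∈ 𝓝 z₀ := hU.mem_nhds hz
  have hfa : AnalyticAt ℂ f z₀ := hd.analyticAt hUn
  have hfa' : AnalyticAt ℂ (fun z => f z - f z₀) z₀ := hfa.sub analyticAt_const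
  have hnc : ¬ ∀ᶠ z in 𝓝 z₀, f z - f z₀ = 0 := by
    intro hc
    have h1 : ∀ᶠ z in 𝓝[≠] z₀, f z - f z₀ = 0 ∧ z ∈ U ∧ z ≠ z₀ :=
      (hc.filter_mono nhdsWithin_le_nhds).and
        ((eventually_nhdsWithin_of_eventually_nhds hUn).and eventually_mem_nhdsWithin)
    obtain ⟨z, hz1, hz2, hz3⟩ := h1.exists
    exact hz3 (hinj hz2 hz (by simpa [sub_eq_zero] using hz1))
  obtain ⟨n, g, hga, hg0, hfg⟩ := (hfa'.exists_eventuallyEq_pow_smul_nonzero_iff).mpr hnc
  -- n ≠ 0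
  have hn0 : n ≠ 0 := by
    rintro rfl
    have := hfg.self_of_nhds
    simp at this
    exact hg0 this.symm
  have hn1 : n ≠ 1 := by
    rintro rfl
    have h1 : HasDerivAt (fun z => (z - z₀) ^ 1 • g z) (g z₀) z₀ := by
      have h2 : HasDerivAt (fun z => (z - z₀)) 1 z₀ := (hasDerivAt_id z₀).sub_const z₀
      have h3 := h2.fun_mul hga.differentiableAt.hasDerivAt
      simpa using h3
    have h4 : HasDerivAt (fun z => f z - f z₀) (g z₀) z₀ := h1.congr_of_eventuallyEq hfg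
    have h5 : HasDerivAt (fun z => f z - f z₀) (deriv f z₀) z₀ :=
      hfa.differentiableAt.hasDerivAt.sub_const _
    have := h4.unique h5
    rw [hder] at this
    exact hg0 this
  have hn2 : 2 ≤ n := by omega
  -- n-th root
  obtain ⟨c, hc⟩ : ∃ c : ℂ, c ^ n = g z₀ := IsAlgClosed.exists_pow_nat_eq _ (by omega)
  have hc0 : c ≠ 0 := by
    rintro rfl
    rw [zero_pow hn0] at hc
    exact hg0 hc.symm
  let k : ℂ → ℂ := fun z => c * Complex.exp (Complex.log (g z / g z₀) / n)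
  have hk0 : k z₀ = c := by simp [k, hg0]
  have hslit : g z₀ / g z₀ ∈ Complex.slitPlane := by
    rw [div_self hg0]; exact Complex.one_mem_slitPlane
  have hka : AnalyticAt ℂ k z₀ := by
    have h1 : AnalyticAt ℂ (fun z => g z / g z₀) z₀ := hga.div analyticAt_const hg0
    have h2 : AnalyticAt ℂ (fun z => Complex.log (g z / g z₀)) z₀ := h1.clog hslit
    have h3 : AnalyticAt ℂ (fun z => Complex.log (g z / g z₀) / n) z₀ :=
      h2.div analyticAt_const (by exact_mod_cast hn0)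
    exact analyticAt_const.mul h3.cexp
  have hkn : ∀ᶠ z in 𝓝 z₀, k z ^ n = g z := by
    have h1 : ∀ᶠ z in 𝓝 z₀, g z ≠ 0 := hga.continuousAt.eventually_ne hg0
    filter_upwards [h1] with z hz1
    simp only [k]
    rw [mul_pow, hc, ← Complex.exp_nat_mul, mul_div_cancel₀, Complex.exp_log]
    · field_simp
    · exact div_ne_zero hz1 hg0
    · exact_mod_cast hn0
  let φ : ℂ → ℂ := fun z => (z - z₀) * k z
  have hφd : HasStrictDerivAt φ (k z₀) z₀ := by
    have h2 : HasStrictDerivAt (fun z : ℂ => (z - z₀)) 1 z₀ :=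
      (hasStrictDerivAt_id z₀).sub_const z₀
    have h3 := h2.fun_mul hka.hasStrictDerivAt
    simpa using h3
  have hφ0 : φ z₀ = 0 := by simp [φ]
  have hmap : map φ (𝓝 z₀) = 𝓝 0 := by
    rw [hφd.map_nhds_eq (by rw [hk0]; exact hc0), hφ0]
  have hgood : ∀ᶠ z in 𝓝 z₀, z ∈ U ∧ φ z ^ n = f z - f z₀ := by
    filter_upwards [hUn, hkn, hfg] with z h1 h2 h3
    refine ⟨h1, ?_⟩
    simp only [φ]
    rw [mul_pow, h2, h3, smul_eq_mul]
  set V := {z | z ∈ U ∧ φ z ^ n = f z - f z₀} with hV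
  have hVn : φ '' V ∈ 𝓝 (0 : ℂ) := by
    rw [← hmap]
    exact Filter.image_mem_map hgood
  have hprim := Complex.isPrimitiveRoot_exp n hn0
  set ω := Complex.exp (2 * ↑Real.pi * Complex.I / ↑n) with hω
  have hmul : ∀ᶠ x in 𝓝 (0 : ℂ), ω * x ∈ φ '' V := by
    have : Tendsto (fun x : ℂ => ω * x) (𝓝 0) (𝓝 0) := by
      have h := (continuous_const_mul ω).tendsto (0 : ℂ)
      simpa using h
    exact this hVn
  have hboth : ∀ᶠ x in 𝓝[≠] (0 : ℂ), x ∈ φ '' V ∧ ω * x ∈ φ '' V ∧ x ≠ 0 :=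
    (eventually_nhdsWithin_of_eventually_nhds hVn).and
      ((eventually_nhdsWithin_of_eventually_nhds hmul).and eventually_mem_nhdsWithin)
  obtain ⟨x, ⟨a, ha, hax⟩, ⟨b, hb, hbx⟩, hx⟩ := hboth.exists
  have h1 : f a = f b := by
    have e1 := ha.2
    have e2 := hb.2
    rw [hax] at e1
    rw [hbx, mul_pow, hprim.pow_eq_one, one_mul, e1] at e2
    linear_combination e2
  have h2 : a = b := hinj ha.1 hb.1 h1
  rw [h2, hbx] at hax
  have h3 : ω = 1 := by
    have : (ω - 1) * x = 0 := by linear_combination hax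
    rcases mul_eq_zero.mp this with h | h
    · linear_combination h
    · exact absurd h hx
  exact hprim.ne_one (by omega) h3

/-- The square root transform of a univalent function omitting `w`. -/
lemma sqrt_transform {h : ℂ → ℂ} (hd : DifferentiableOn ℂ h (ball 0 1))
    (hinj : InjOn h (ball 0 1)) (h0 : h 0 = 0) {w : ℂ} (hw : w ∉ h '' ball 0 1) :
    w ≠ 0 ∧ ∃ q : ℂ → ℂ, DifferentiableOn ℂ q (ball 0 1) ∧ q 0 = 1 ∧
      (∀ z ∈ ball (0 : ℂ) 1, q z ^ 2 = 1 - h z / w) ∧ InjOn q (ball 0 1) ∧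
      (∀ z₁ ∈ ball (0 : ℂ) 1, ∀ z₂ ∈ ball (0 : ℂ) 1, q z₁ ≠ - q z₂) ∧
      deriv q 0 = - deriv h 0 / (2 * w) := by
  have hzero : (0 : ℂ) ∈ ball (0 : ℂ) 1 := by simp
  have hw0 : w ≠ 0 := by
    rintro rfl
    exact hw ⟨0, hzero, h0⟩
  refine ⟨hw0, ?_⟩
  have hHd : DifferentiableOn ℂ (fun z => 1 - h z / w) (ball 0 1) :=
    (differentiableOn_const _).sub (hd.div_const w)
  have hHn : ∀ z ∈ ball (0 : ℂ) 1, 1 - h z / w ≠ 0 := by
    intro z hz hc
    apply hw
    refine ⟨z, hz, ?_⟩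
    have : h z / w = 1 := by linear_combination -hc
    rwa [div_eq_one_iff_eq hw0] at this
  obtain ⟨q, hqd, hq0, hq2⟩ := exists_sqrt hHd hHn (by simp [h0])
  have hsq : ∀ z₁ ∈ ball (0 : ℂ) 1, ∀ z₂ ∈ ball (0 : ℂ) 1, q z₁ ^ 2 = q z₂ ^ 2 → z₁ = z₂ := by
    intro z₁ hz₁ z₂ hz₂ he
    rw [hq2 z₁ hz₁, hq2 z₂ hz₂] at he
    have : h z₁ / w = h z₂ / w := by linear_combination -he
    have : h z₁ = h z₂ := by
      rwa [div_left_inj' hw0] at this
    exact hinj hz₁ hz₂ this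
  refine ⟨q, hqd, hq0, hq2, ?_, ?_, ?_⟩
  · intro z₁ hz₁ z₂ hz₂ he
    exact hsq z₁ hz₁ z₂ hz₂ (by rw [he])
  · intro z₁ hz₁ z₂ hz₂ he
    have h1 := hsq z₁ hz₁ z₂ hz₂ (by rw [he]; ring)
    rw [h1] at he
    have h2 : q z₂ = 0 := by
      have : (2 : ℂ) * q z₂ = 0 := by linear_combination he
      simpa using this
    have h3 := hq2 z₂ hz₂
    rw [h2] at h3
    exact hHn z₂ hz₂ (by rw [← h3]; ring)
  · have hn := isOpen_ball.mem_nhds hzero
    have e1 : HasDerivAt q (deriv q 0) 0 := (hqd.differentiableAt hn).hasDerivAt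
    have e2 : HasDerivAt h (deriv h 0) 0 := (hd.differentiableAt hn).hasDerivAt
    have e3 : HasDerivAt (fun z => q z ^ 2) (2 * q 0 ^ (2 - 1) * deriv q 0) 0 := by
      simpa using e1.fun_pow 2
    have e4 : HasDerivAt (fun z => 1 - h z / w) (-(deriv h 0 / w)) 0 := by
      simpa using (e2.div_const w).const_sub 1
    have e5 : (fun z => q z ^ 2) =ᶠ[𝓝 0] (fun z => 1 - h z / w) := by
      filter_upwards [hn] with z hz
      exact hq2 z hz
    have e6 := (e4.congr_of_eventuallyEq e5).unique e3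
    rw [hq0] at e6
    norm_num at e6
    have e7 : deriv q 0 = -(deriv h 0 / w) / 2 := by linear_combination (-1 / 2 : ℂ) * e6
    rw [e7]
    field_simp

/-- bounded univalent functions, normalised -/
structure Nice (M : ℝ) (h : ℂ → ℂ) : Prop where
  diff : DifferentiableOn ℂ h (ball 0 1)
  inj : InjOn h (ball 0 1)
  zero : h 0 = 0
  bdd : ∀ z ∈ ball (0 : ℂ) 1, ‖h z‖ ≤ M * ‖deriv h 0‖

/-- covering property -/
def Cov (M κ : ℝ) : Prop :=
  ∀ h : ℂ → ℂ, Nice M h → ∀ w : ℂ, ‖w‖ < κ * ‖deriv h 0‖ → w ∈ h '' ball 0 1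

lemma Cov.mono {M κ κ' : ℝ} (h : Cov M κ) (hk : κ' ≤ κ) : Cov M κ' := by
  intro f hf w hw
  exact h f hf w (hw.trans_le (by gcongr))

lemma cov_base {M : ℝ} (hM : 1 ≤ M) : Cov M (1 / (16 * (M + 1))) := by
  intro h hN w hw
  by_contra hcon
  obtain ⟨hw0, q, hqd, hq0, hq2, hqi, hqa, hq'⟩ := sqrt_transform hN.diff hN.inj hN.zero hcon
  have hD : 0 < ‖deriv h 0‖ := by
    rw [norm_pos_iff]
    exact deriv_ne_zero_of_injOn isOpen_ball hN.diff hN.inj (by simp)
  set D := ‖deriv h 0‖ with hDdef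
  have hW : 0 < ‖w‖ := norm_pos_iff.mpr hw0
  set s := Real.sqrt (1 + M * D / ‖w‖) with hs
  have hs2 : s ^ 2 = 1 + M * D / ‖w‖ := Real.sq_sqrt (by positivity)
  have hs0 : 0 ≤ s := Real.sqrt_nonneg _
  have hs1 : 1 ≤ s := by
    rw [hs, Real.one_le_sqrt]
    have : 0 ≤ M * D / ‖w‖ := by positivity
    linarith
  have hqb : ∀ z ∈ ball (0 : ℂ) 1, ‖q z‖ ≤ s := by
    intro z hz
    have h1 : ‖q z‖ ^ 2 ≤ s ^ 2 := by
      rw [← norm_pow, hq2 z hz, hs2]
      calc ‖1 - h z / w‖ ≤ ‖(1 : ℂ)‖ + ‖h z / w‖ := norm_sub_le _ _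
        _ = 1 + ‖h z‖ / ‖w‖ := by rw [norm_one, norm_div]
        _ ≤ 1 + M * D / ‖w‖ := by
            have := hN.bdd z hz
            gcongr
    exact le_of_sq_le_sq h1 hs0
  have hmaps : MapsTo q (ball 0 1) (closedBall (q 0) (2 * s)) := by
    intro z hz
    rw [mem_closedBall, dist_eq_norm, hq0]
    calc ‖q z - 1‖ ≤ ‖q z‖ + ‖(1 : ℂ)‖ := norm_sub_le _ _
      _ ≤ s + s := by
          rw [norm_one]
          exact add_le_add (hqb z hz) hs1
      _ = 2 * s := by ring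
  have hder := Complex.norm_deriv_le_div_of_mapsTo_ball hqd hmaps one_pos
  rw [hq', norm_div, norm_neg, norm_mul, Complex.norm_ofNat, div_one, ← hDdef] at hder
  rw [div_le_iff₀ (by positivity)] at hder
  have h2 : D ^ 2 ≤ 16 * ‖w‖ ^ 2 * s ^ 2 := by
    calc D ^ 2 ≤ (2 * s * (2 * ‖w‖)) ^ 2 := by gcongr
      _ = 16 * ‖w‖ ^ 2 * s ^ 2 := by ring
  rw [hs2] at h2
  have h3 : 16 * ‖w‖ ^ 2 * (1 + M * D / ‖w‖) = 16 * ‖w‖ ^ 2 + 16 * M * D * ‖w‖ := by
    field_simp
  rw [h3] at h2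
  have h4 : ‖w‖ * (16 * (M + 1)) < D := by
    have := hw
    rw [one_div_mul_eq_div, lt_div_iff₀ (by positivity)] at this
    exact this
  nlinarith [mul_pos hW hD, mul_pos hW hW]

lemma cov_step {M κ : ℝ} (hM : 1 ≤ M) (hκ : 0 < κ) (hκ' : κ ≤ 1 / 128) (hC : Cov M κ) :
    Cov M (2 * κ) := by
  intro h hN w hw
  by_contra hcon
  obtain ⟨hw0, q, hqd, hq0, hq2, hqi, hqa, hq'⟩ := sqrt_transform hN.diff hN.inj hN.zero hcon
  have hD : 0 < ‖deriv h 0‖ := by
    rw [norm_pos_iff]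
    exact deriv_ne_zero_of_injOn isOpen_ball hN.diff hN.inj (by simp)
  set D := ‖deriv h 0‖ with hDdef
  have hW : 0 < ‖w‖ := norm_pos_iff.mpr hw0
  set s := Real.sqrt (1 + M * D / ‖w‖) with hs
  have hs2 : s ^ 2 = 1 + M * D / ‖w‖ := Real.sq_sqrt (by positivity)
  have hs0 : 0 ≤ s := Real.sqrt_nonneg _
  have hqb : ∀ z ∈ ball (0 : ℂ) 1, ‖q z‖ ≤ s := by
    intro z hz
    have h1 : ‖q z‖ ^ 2 ≤ s ^ 2 := by
      rw [← norm_pow, hq2 z hz, hs2]
      calc ‖1 - h z / w‖ ≤ ‖(1 : ℂ)‖ + ‖h z / w‖ := norm_sub_le _ _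
        _ = 1 + ‖h z‖ / ‖w‖ := by rw [norm_one, norm_div]
        _ ≤ 1 + M * D / ‖w‖ := by
            have := hN.bdd z hz
            gcongr
    exact le_of_sq_le_sq h1 hs0
  have hwD : 64 * ‖w‖ ≤ D := by nlinarith
  have hy : 64 ≤ M * D / ‖w‖ := by
    rw [le_div_iff₀ hW]; nlinarith
  have hsy : 1 + s ≤ (M * D / ‖w‖) / 2 := by
    have : s ≤ (M * D / ‖w‖) / 2 - 1 := by
      rw [hs]
      apply Real.sqrt_le_iff.mpr
      constructor
      · linarith
      · nlinarith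
    linarith
  have hderq : ‖deriv q 0‖ = D / (2 * ‖w‖) := by
    rw [hq', norm_div, norm_neg, norm_mul, Complex.norm_ofNat]
  have hzero : (0 : ℂ) ∈ ball (0 : ℂ) 1 := by simp
  have hn := isOpen_ball.mem_nhds hzero
  have hder1 : deriv (fun z => q z - 1) 0 = deriv q 0 := by
    simp
  have hNq : Nice M (fun z => q z - 1) := by
    refine ⟨hqd.sub_const 1, ?_, by simp [hq0], ?_⟩
    · intro z₁ hz₁ z₂ hz₂ he
      apply hqi hz₁ hz₂
      simpa using he
    · intro z hz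
      rw [hder1, hderq]
      calc ‖q z - 1‖ ≤ ‖q z‖ + ‖(1 : ℂ)‖ := norm_sub_le _ _
        _ ≤ s + 1 := by rw [norm_one]; linarith [hqb z hz]
        _ ≤ M * (D / (2 * ‖w‖)) := by
            calc s + 1 ≤ (M * D / ‖w‖) / 2 := by linarith
              _ = M * (D / (2 * ‖w‖)) := by field_simp
  have hcov := hC _ hNq
  rw [hder1, hderq] at hcov
  set ρ := κ * (D / (2 * ‖w‖)) with hρ
  have hρ0 : 0 < ρ := by positivity
  have hlow : ∀ z ∈ ball (0 : ℂ) 1, ρ ≤ ‖q z + 1‖ := by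
    intro z hz
    by_contra hlt
    push Not at hlt
    obtain ⟨z₂, hz₂, he⟩ := hcov (-(q z) - 1) (by
      have e8 : -(q z) - 1 = -(q z + 1) := by ring
      rw [e8, norm_neg]
      exact hlt)
    apply hqa z₂ hz₂ z hz
    have : q z₂ - 1 = -(q z) - 1 := he
    linear_combination this
  have hgn : ∀ z ∈ ball (0 : ℂ) 1, q z + 1 ≠ 0 := by
    intro z hz hc
    have := hlow z hz
    rw [hc, norm_zero] at this
    linarith
  have hgd : DifferentiableOn ℂ (fun z => (q z + 1)⁻¹) (ball 0 1) :=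
    (hqd.add_const 1).fun_inv hgn
  have hgb : ∀ z ∈ ball (0 : ℂ) 1, ‖(q z + 1)⁻¹‖ ≤ 1 / ρ := by
    intro z hz
    rw [norm_inv, ← one_div]
    exact one_div_le_one_div_of_le hρ0 (hlow z hz)
  have hmaps : MapsTo (fun z => (q z + 1)⁻¹) (ball 0 1)
      (closedBall ((fun z => (q z + 1)⁻¹) 0) (2 / ρ)) := by
    intro z hz
    rw [mem_closedBall, dist_eq_norm]
    calc ‖(q z + 1)⁻¹ - (q 0 + 1)⁻¹‖ ≤ ‖(q z + 1)⁻¹‖ + ‖(q 0 + 1)⁻¹‖ := norm_sub_le _ _
      _ ≤ 1 / ρ + 1 / ρ := add_le_add (hgb z hz) (hgb 0 hzero)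
      _ = 2 / ρ := by ring
  have hder := Complex.norm_deriv_le_div_of_mapsTo_ball hgd hmaps one_pos
  have hder2 : deriv (fun z => (q z + 1)⁻¹) 0 = - deriv q 0 / 4 := by
    have e1 : HasDerivAt q (deriv q 0) 0 := (hqd.differentiableAt hn).hasDerivAt
    have e2 := (e1.add_const 1).fun_inv (hgn 0 hzero)
    rw [e2.deriv, hq0]
    norm_num
  rw [hder2, norm_div, norm_neg, hderq, Complex.norm_ofNat, div_one, hρ] at hder
  have h5 : D / (2 * ‖w‖) / 4 = D / (8 * ‖w‖) := by field_simp; norm_num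
  have h6 : 2 / (κ * (D / (2 * ‖w‖))) = 4 * ‖w‖ / (κ * D) := by field_simp; norm_num
  rw [h5, h6, div_le_div_iff₀ (by positivity) (by positivity)] at hder
  have h7 : ‖w‖ ^ 2 < 4 * κ ^ 2 * D ^ 2 := by
    calc ‖w‖ ^ 2 < (2 * κ * D) ^ 2 := by gcongr
      _ = 4 * κ ^ 2 * D ^ 2 := by ring
  have h8 : κ * D ^ 2 ≤ 32 * ‖w‖ ^ 2 := by nlinarith
  have h9 : 128 * κ ^ 2 * D ^ 2 ≤ κ * D ^ 2 := by
    have : 128 * κ ^ 2 ≤ κ := by nlinarith
    nlinarith [sq_nonneg D]
  linarith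

lemma cov_all {M : ℝ} (hM : 1 ≤ M) : Cov M (1 / 64) := by
  have key : ∀ n : ℕ, Cov M (min (1 / 64) (2 ^ n * (1 / (16 * (M + 1))))) := by
    intro n
    induction n with
    | zero => exact (cov_base hM).mono (by simp)
    | succ n ih =>
      set a := 2 ^ n * (1 / (16 * (M + 1))) with ha
      have ha0 : 0 < a := by positivity
      by_cases hle : a ≤ 1 / 128
      · have h1 : Cov M a := ih.mono (by rw [le_min_iff]; constructor <;> linarith)
        refine (cov_step hM ha0 hle h1).mono ?_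
        refine (min_le_right _ _).trans (le_of_eq ?_)
        rw [ha]; ring
      · push Not at hle
        have h1 : Cov M (1 / 128) := ih.mono (by
          rw [le_min_iff]; constructor <;> linarith)
        refine (cov_step hM (by norm_num) le_rfl h1).mono ?_
        refine (min_le_left _ _).trans (by norm_num)
  obtain ⟨n, hn⟩ := pow_unbounded_of_one_lt (16 * (M + 1)) (one_lt_two (α := ℝ))
  refine (key n).mono ?_
  rw [le_min_iff]
  refine ⟨le_rfl, ?_⟩
  have : 1 ≤ 2 ^ n * (1 / (16 * (M + 1))) := by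
    rw [mul_one_div, le_div_iff₀ (by positivity)]
    linarith
  linarith

/-- Weak Koebe covering theorem. -/
theorem koebe_cover {h : ℂ → ℂ} (hd : DifferentiableOn ℂ h (ball 0 1))
    (hinj : InjOn h (ball 0 1)) {w : ℂ} (hw : ‖w - h 0‖ < 1 / 64 * ‖deriv h 0‖) :
    w ∈ h '' ball 0 1 := by
  have hD : 0 < ‖deriv h 0‖ := by
    rw [norm_pos_iff]
    exact deriv_ne_zero_of_injOn isOpen_ball hd hinj (by simp)
  set D := ‖deriv h 0‖ with hDdef
  -- choose s
  obtain ⟨s, hs0, hs1, hs⟩ : ∃ s : ℝ, 0 < s ∧ s < 1 ∧ ‖w - h 0‖ < 1 / 64 * (s * D) := by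
    set t := ‖w - h 0‖ / (1 / 64 * D) with ht
    have ht1 : t < 1 := by rw [ht, div_lt_one (by positivity)]; exact hw
    have ht0 : 0 ≤ t := by positivity
    refine ⟨(t + 1) / 2, by linarith, by linarith, ?_⟩
    have : ‖w - h 0‖ = 1 / 64 * (t * D) := by rw [ht]; field_simp
    rw [this]
    have : t * D < (t + 1) / 2 * D := by
      apply mul_lt_mul_of_pos_right _ hD
      linarith
    linarith
  have hmap : ∀ z ∈ ball (0 : ℂ) 1, (s : ℂ) * z ∈ closedBall (0 : ℂ) s := by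
    intro z hz
    rw [mem_closedBall, dist_zero_right, norm_mul, Complex.norm_real, Real.norm_of_nonneg hs0.le]
    have : ‖z‖ < 1 := by simpa using hz
    nlinarith
  have hsub : closedBall (0 : ℂ) s ⊆ ball (0 : ℂ) 1 := closedBall_subset_ball hs1
  -- the rescaled function
  have hg : ∀ z ∈ ball (0 : ℂ) 1,
      HasDerivAt (fun z => h (s * z) - h 0) (s * deriv h (s * z)) z := by
    intro z hz
    have e1 : HasDerivAt h (deriv h (s * z)) (s * z) :=
      (hd.differentiableAt (isOpen_ball.mem_nhds (hsub (hmap z hz)))).hasDerivAt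
    have e2 : HasDerivAt (fun z : ℂ => (s : ℂ) * z) s z := by
      simpa using (hasDerivAt_id z).const_mul (s : ℂ)
    have e3 := (e1.comp z e2).sub_const (h 0)
    rw [mul_comm] at e3
    exact e3
  have hder : deriv (fun z => h (s * z) - h 0) 0 = s * deriv h 0 := by
    have := (hg 0 (by simp)).deriv
    simpa using this
  have hnd : ‖deriv (fun z => h (s * z) - h 0) 0‖ = s * D := by
    rw [hder, norm_mul, Complex.norm_real, Real.norm_of_nonneg hs0.le]
  obtain ⟨K, hK⟩ := (isCompact_closedBall (0 : ℂ) s).exists_bound_of_continuousOn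
    ((hd.continuousOn.mono hsub).sub continuousOn_const : ContinuousOn (fun z => h z - h 0) _)
  set M := max 1 (K / (s * D)) with hM
  have hNice : Nice M (fun z => h (s * z) - h 0) := by
    refine ⟨fun z hz => (hg z hz).differentiableAt.differentiableWithinAt, ?_, by simp, ?_⟩
    · intro z₁ hz₁ z₂ hz₂ he
      have h1 : h (s * z₁) = h (s * z₂) := by simpa using he
      have h2 := hinj (hsub (hmap z₁ hz₁)) (hsub (hmap z₂ hz₂)) h1
      have hs' : (s : ℂ) ≠ 0 := by exact_mod_cast hs0.ne'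
      exact mul_left_cancel₀ hs' h2
    · intro z hz
      rw [hnd]
      have h1 := hK _ (hmap z hz)
      have h2 : K / (s * D) ≤ M := le_max_right _ _
      rw [div_le_iff₀ (by positivity)] at h2
      exact h1.trans h2
  obtain ⟨z, hz, he⟩ := cov_all (le_max_left 1 (K / (s * D))) _ hNice (w - h 0) (by
    rw [hnd]; exact hs)
  exact ⟨s * z, hsub (hmap z hz), by
    have : h (s * z) - h 0 = w - h 0 := he
    linear_combination this⟩

end Pool.Agent.Lib.MP_5011cf_an
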