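import Mathlib
import Pool.Agent.Lib.MP_5011cf_an.Koebe

open Metric Set Filter Topology

namespace Pool.Agent.Lib.MP_5011cf_an

/-- The second derivative bound at the centre. -/
lemma second_deriv_bound {h : ℂ → ℂ} (hd : DifferentiableOn ℂ h (ball 0 1))
    (hinj : InjOn h (ball 0 1)) : ‖deriv (deriv h) 0‖ ≤ 65536 * ‖deriv h 0‖ := by
  have hzero : (0 : ℂ) ∈ ball (0 : ℂ) 1 := by simp
  have hne : ∀ z ∈ ball (0 : ℂ) 1, deriv h z ≠ 0 := fun z hz =>
    deriv_ne_zero_of_injOn isOpen_ball hd hinj hz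
  have hD : 0 < ‖deriv h 0‖ := norm_pos_iff.mpr (hne 0 hzero)
  set D := ‖deriv h 0‖ with hDdef
  set r := D / 64 with hr
  have hr0 : 0 < r := by positivity
  set φ := Function.invFunOn h (ball 0 1) with hφ
  -- derivative of the inverse
  have hφd : ∀ z ∈ ball (0 : ℂ) 1, HasStrictDerivAt φ (deriv h z)⁻¹ (h z) := by
    intro z hz
    have e1 : HasStrictDerivAt h (deriv h z) z :=
      (hd.analyticAt (isOpen_ball.mem_nhds hz)).hasStrictDerivAt
    apply e1.to_local_left_inverse (hne z hz)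
    filter_upwards [isOpen_ball.mem_nhds hz] with y hy
    exact hinj.leftInvOn_invFunOn hy
  have hcov : ∀ w ∈ ball (h 0) r, w ∈ h '' ball 0 1 := by
    intro w hw
    apply koebe_cover hd hinj
    rw [mem_ball, dist_eq_norm] at hw
    rw [← hDdef]
    linarith
  have hφD : DifferentiableOn ℂ φ (ball (h 0) r) := by
    intro w hw
    obtain ⟨z, hz, rfl⟩ := hcov w hw
    exact (hφd z hz).hasDerivAt.differentiableAt.differentiableWithinAt
  have hφm : ∀ w ∈ ball (h 0) r, ‖φ w‖ < 1 := by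
    intro w hw
    have := Function.invFunOn_mem (hcov w hw)
    simpa using this
  have hφ' : ∀ w ∈ ball (h 0) (r / 2), ‖deriv φ w‖ ≤ 4 / r := by
    intro w hw
    have hsub : ball w (r / 2) ⊆ ball (h 0) r := by
      apply ball_subset_ball'
      have := mem_ball.mp hw
      linarith
    have hmaps : MapsTo φ (ball w (r / 2)) (closedBall (φ w) 2) := by
      intro y hy
      rw [mem_closedBall, dist_eq_norm]
      have h1 := hφm y (hsub hy)
      have h2 := hφm w (hsub (mem_ball_self (by positivity)))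
      linarith [norm_sub_le (φ y) (φ w)]
    have h1 := Complex.norm_deriv_le_div_of_mapsTo_ball (hφD.mono hsub) hmaps (by positivity)
    calc ‖deriv φ w‖ ≤ 2 / (r / 2) := h1
      _ = 4 / r := by field_simp; norm_num
  have hφ'D : DifferentiableOn ℂ (deriv φ) (ball (h 0) (r / 2)) := by
    apply DifferentiableOn.deriv _ isOpen_ball
    exact hφD.mono (ball_subset_ball (by linarith))
  have hφ'' : ‖deriv (deriv φ) (h 0)‖ ≤ 16 / r ^ 2 := by
    have hmaps : MapsTo (deriv φ) (ball (h 0) (r / 2)) (closedBall (deriv φ (h 0)) (8 / r)) := by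
      intro y hy
      rw [mem_closedBall, dist_eq_norm]
      have h1 := hφ' y hy
      have h2 := hφ' (h 0) (mem_ball_self (by positivity))
      calc ‖deriv φ y - deriv φ (h 0)‖ ≤ ‖deriv φ y‖ + ‖deriv φ (h 0)‖ := norm_sub_le _ _
        _ ≤ 4 / r + 4 / r := add_le_add h1 h2
        _ = 8 / r := by ring
    have h1 := Complex.norm_deriv_le_div_of_mapsTo_ball hφ'D hmaps (by positivity)
    calc ‖deriv (deriv φ) (h 0)‖ ≤ 8 / r / (r / 2) := h1
      _ = 16 / r ^ 2 := by field_simp; norm_num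
  -- relation
  have hrel : deriv h =ᶠ[𝓝 0] fun z => (deriv φ (h z))⁻¹ := by
    filter_upwards [isOpen_ball.mem_nhds hzero] with z hz
    rw [(hφd z hz).hasDerivAt.deriv, inv_inv]
  have hφ0 : deriv φ (h 0) = (deriv h 0)⁻¹ := (hφd 0 hzero).hasDerivAt.deriv
  have e1 : HasDerivAt (deriv φ) (deriv (deriv φ) (h 0)) (h 0) :=
    (hφ'D.differentiableAt (isOpen_ball.mem_nhds (mem_ball_self (by positivity)))).hasDerivAt
  have e2 : HasDerivAt h (deriv h 0) 0 :=
    (hd.differentiableAt (isOpen_ball.mem_nhds hzero)).hasDerivAt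
  have e3 : HasDerivAt (fun z => deriv φ (h z)) (deriv (deriv φ) (h 0) * deriv h 0) 0 :=
    e1.comp (0 : ℂ) e2
  have hne0 : deriv φ (h 0) ≠ 0 := by
    rw [hφ0]; exact inv_ne_zero (hne 0 hzero)
  have e4 := e3.fun_inv hne0
  have e5 : deriv (deriv h) 0 = -(deriv (deriv φ) (h 0) * deriv h 0) / deriv φ (h 0) ^ 2 := by
    rw [hrel.deriv_eq, e4.deriv]
  rw [e5, hφ0, norm_div, norm_neg, norm_mul, norm_pow, norm_inv, ← hDdef]
  calc ‖deriv (deriv φ) (h 0)‖ * D / D⁻¹ ^ 2 ≤ (16 / r ^ 2) * D / D⁻¹ ^ 2 := by gcongr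
    _ = 65536 * D := by
      rw [hr]
      field_simp
      norm_num

/-- The Bloch bound for `log f'`. -/
lemma bloch_bound {f : ℂ → ℂ} (hd : DifferentiableOn ℂ f (ball 0 1))
    (hinj : InjOn f (ball 0 1)) {z : ℂ} (hz : ‖z‖ < 1) :
    (1 - ‖z‖) * ‖deriv (deriv f) z‖ ≤ 65536 * ‖deriv f z‖ := by
  set a := 1 - ‖z‖ with ha
  have ha0 : 0 < a := by linarith
  have hmap : ∀ ζ ∈ ball (0 : ℂ) 1, z + a * ζ ∈ ball (0 : ℂ) 1 := by
    intro ζ hζ
    rw [mem_ball_zero_iff] at hζ ⊢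
    calc ‖z + a * ζ‖ ≤ ‖z‖ + ‖(a : ℂ) * ζ‖ := norm_add_le _ _
      _ = ‖z‖ + a * ‖ζ‖ := by rw [norm_mul, Complex.norm_real, Real.norm_of_nonneg ha0.le]
      _ < ‖z‖ + a * 1 := by gcongr
      _ = 1 := by rw [ha]; ring
  have hlin : ∀ ζ : ℂ, HasDerivAt (fun ζ : ℂ => z + a * ζ) a ζ := by
    intro ζ
    simpa using ((hasDerivAt_id ζ).const_mul (a : ℂ)).const_add z
  have hg1 : ∀ ζ ∈ ball (0 : ℂ) 1,
      HasDerivAt (fun ζ => f (z + a * ζ)) (deriv f (z + a * ζ) * a) ζ := by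
    intro ζ hζ
    have e1 : HasDerivAt f (deriv f (z + a * ζ)) (z + a * ζ) :=
      (hd.differentiableAt (isOpen_ball.mem_nhds (hmap ζ hζ))).hasDerivAt
    exact e1.comp ζ (hlin ζ)
  have hd' : DifferentiableOn ℂ (deriv f) (ball 0 1) := hd.deriv isOpen_ball
  have hg2 : HasDerivAt (fun ζ => deriv f (z + a * ζ) * a) (deriv (deriv f) z * a * a) 0 := by
    have h0 : z + a * (0 : ℂ) = z := by simp
    have e1 : HasDerivAt (deriv f) (deriv (deriv f) z) (z + a * 0) := by
      rw [h0]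
      exact (hd'.differentiableAt (isOpen_ball.mem_nhds (by simpa using hz))).hasDerivAt
    exact (e1.comp (0 : ℂ) (hlin 0)).mul_const (a : ℂ)
  have hbound := second_deriv_bound (h := fun ζ => f (z + a * ζ))
    (fun ζ hζ => (hg1 ζ hζ).differentiableAt.differentiableWithinAt) (by
      intro ζ₁ h₁ ζ₂ h₂ he
      have h3 := hinj (hmap ζ₁ h₁) (hmap ζ₂ h₂) he
      have ha' : (a : ℂ) ≠ 0 := by exact_mod_cast ha0.ne'
      have h4 : (a : ℂ) * ζ₁ = a * ζ₂ := by linear_combination h3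
      exact mul_left_cancel₀ ha' h4)
  have hzero : (0 : ℂ) ∈ ball (0 : ℂ) 1 := by simp
  have e1 : deriv (fun ζ => f (z + a * ζ)) =ᶠ[𝓝 0] fun ζ => deriv f (z + a * ζ) * a := by
    filter_upwards [isOpen_ball.mem_nhds hzero] with ζ hζ
    exact (hg1 ζ hζ).deriv
  rw [e1.deriv_eq, hg2.deriv, e1.self_of_nhds] at hbound
  simp only [mul_zero, add_zero, norm_mul, Complex.norm_real, Real.norm_of_nonneg ha0.le] at hbound
  have h5 : a * (a * ‖deriv (deriv f) z‖) ≤ a * (65536 * ‖deriv f z‖) := by linarith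
  exact le_of_mul_le_mul_left h5 ha0

/-- Harnack-type inequality for the derivative of a univalent function. -/
lemma harnack {f : ℂ → ℂ} (hd : DifferentiableOn ℂ f (ball 0 1))
    (hinj : InjOn f (ball 0 1)) {z w : ℂ} (hz : ‖z‖ < 1) (hw : ‖w - z‖ ≤ (1 - ‖z‖) / 2) :
    ‖deriv f w‖ ≤ ‖deriv f z‖ * Real.exp 65536 := by
  have hd' : DifferentiableOn ℂ (deriv f) (ball 0 1) := hd.deriv isOpen_ball
  set v := w - z with hv
  have hball : ∀ t ∈ Icc (0 : ℝ) 1, ‖z + t * v‖ ≤ ‖z‖ + (1 - ‖z‖) / 2 := by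
    intro t ht
    calc ‖z + t * v‖ ≤ ‖z‖ + ‖(t : ℂ) * v‖ := norm_add_le _ _
      _ = ‖z‖ + t * ‖v‖ := by rw [norm_mul, Complex.norm_real, Real.norm_of_nonneg ht.1]
      _ ≤ ‖z‖ + 1 * ‖v‖ := by gcongr; exact ht.2
      _ ≤ ‖z‖ + (1 - ‖z‖) / 2 := by linarith
  have hball' : ∀ t ∈ Icc (0 : ℝ) 1, z + t * v ∈ ball (0 : ℂ) 1 := by
    intro t ht
    rw [mem_ball_zero_iff]
    have := hball t ht
    linarith
  have hder : ∀ t ∈ Icc (0 : ℝ) 1, HasDerivAt (fun t : ℝ => deriv f (z + t * v))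
      (deriv (deriv f) (z + t * v) * v) t := by
    intro t ht
    have e1 : HasDerivAt (deriv f) (deriv (deriv f) (z + t * v)) (z + t * v) :=
      (hd'.differentiableAt (isOpen_ball.mem_nhds (hball' t ht))).hasDerivAt
    have e2 : HasDerivAt (fun t : ℝ => z + (t : ℂ) * v) v t := by
      have := ((Complex.ofRealCLM.hasDerivAt (x := t)).mul_const v).const_add z
      simpa using this
    exact e1.comp t e2
  have hG := norm_le_gronwallBound_of_norm_deriv_right_le (f := fun t : ℝ => deriv f (z + t * v))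
    (f' := fun t : ℝ => deriv (deriv f) (z + t * v) * v) (δ := ‖deriv f z‖) (K := 65536) (ε := 0)
    (a := 0) (b := 1)
    (fun t ht => (hder t ht).continuousAt.continuousWithinAt)
    (fun t ht => (hder t ⟨ht.1, ht.2.le⟩).hasDerivWithinAt)
    (by simp)
    (by
      intro t ht
      have ht' : t ∈ Icc (0 : ℝ) 1 := ⟨ht.1, ht.2.le⟩
      have h1 := hball t ht'
      have h2 := hball' t ht'
      rw [mem_ball_zero_iff] at h2
      have h3 := bloch_bound hd hinj h2
      have h4 : (1 - ‖z‖) / 2 ≤ 1 - ‖z + t * v‖ := by linarith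
      rw [norm_mul, add_zero]
      have h5 : ‖v‖ ≤ 1 - ‖z + t * v‖ := hw.trans h4
      calc ‖deriv (deriv f) (z + t * v)‖ * ‖v‖
          ≤ ‖deriv (deriv f) (z + t * v)‖ * (1 - ‖z + t * v‖) := by gcongr
        _ = (1 - ‖z + t * v‖) * ‖deriv (deriv f) (z + t * v)‖ := by ring
        _ ≤ _ := h3)
    1 (by simp)
  rw [gronwallBound_ε0] at hG
  simpa [hv] using hG

/-- Two constants estimate on the upper half disc. -/
lemma two_constants_aux {G : ℂ → ℂ} (hG : DifferentiableOn ℂ G (ball 0 2)) {M δ lam : ℝ}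
    (hM : 0 ≤ M) (hδ : 0 ≤ δ) (hlam : 0 ≤ lam)
    (h1 : ∀ s : ℂ, ‖s‖ ≤ 1 → ‖G s‖ ≤ M)
    (h2 : ∀ x : ℝ, |x| ≤ 1 → ‖G x‖ ≤ δ) {s : ℂ} (hs : ‖s‖ ≤ 1 / 2) (him : 0 ≤ s.im) :
    ‖G s‖ ≤ Real.exp (3 / 4 * lam) * δ + Real.exp (-(1 / 4 * lam)) * M := by
  set C := δ + Real.exp (-lam) * M with hC
  -- the auxiliary function
  let Φ : ℂ → ℂ := fun s => G s * Complex.exp (-(lam * (s ^ 2 - 2 * Complex.I * s)))
  have hre : ∀ s : ℂ, (-(lam * (s ^ 2 - 2 * Complex.I * s)) : ℂ).re
      = -(lam * (s.re ^ 2 - s.im ^ 2 + 2 * s.im)) := by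
    intro s
    simp [Complex.mul_re, Complex.mul_im, sq]
  have hnorm : ∀ s : ℂ, ‖Φ s‖ = ‖G s‖ * Real.exp (-(lam * (s.re ^ 2 - s.im ^ 2 + 2 * s.im))) := by
    intro s
    simp only [Φ]
    rw [norm_mul, Complex.norm_exp, hre]
  set U : Set ℂ := ball (0 : ℂ) 1 ∩ {s : ℂ | 0 < s.im} with hU
  have hUb : Bornology.IsBounded U := isBounded_ball.subset inter_subset_left
  have hUcl : closure U ⊆ closedBall (0 : ℂ) 1 ∩ {s : ℂ | 0 ≤ s.im} := by
    apply closure_minimal
    · rintro s ⟨h3, h4⟩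
      have h4' : 0 < s.im := h4
      exact ⟨ball_subset_closedBall h3, h4'.le⟩
    · exact isClosed_closedBall.inter (isClosed_le continuous_const Complex.continuous_im)
  have hUo : IsOpen U := isOpen_ball.inter (isOpen_lt continuous_const Complex.continuous_im)
  have hΦd : DifferentiableOn ℂ Φ (ball 0 2) := by
    apply hG.mul
    fun_prop
  have hcl2 : closure U ⊆ ball (0 : ℂ) 2 := by
    intro s hs
    have := (hUcl hs).1
    rw [mem_closedBall_zero_iff] at this
    rw [mem_ball_zero_iff]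
    linarith
  have hΦc : DiffContOnCl ℂ Φ U :=
    (hΦd.mono hcl2).diffContOnCl
  have hfr : ∀ z ∈ frontier U, ‖Φ z‖ ≤ C := by
    intro z hz
    have hzc : z ∈ closure U := frontier_subset_closure hz
    have hzn : z ∉ U := by
      have := hUo.frontier_eq ▸ hz
      exact this.2
    obtain ⟨hz1, hz2⟩ := hUcl hzc
    rw [mem_closedBall_zero_iff] at hz1
    have hz2' : 0 ≤ z.im := hz2
    rw [hnorm]
    have hnsq : z.re ^ 2 + z.im ^ 2 = ‖z‖ ^ 2 := by
      rw [← Complex.normSq_eq_norm_sq, Complex.normSq_apply]; ring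
    by_cases him0 : z.im = 0
    · -- real point
      have hzr : z = (z.re : ℂ) := by
        apply Complex.ext <;> simp [him0]
      have h3 : ‖G z‖ ≤ δ := by
        rw [hzr]
        apply h2
        exact (Complex.abs_re_le_norm z).trans hz1
      have h4 : Real.exp (-(lam * (z.re ^ 2 - z.im ^ 2 + 2 * z.im))) ≤ 1 := by
        rw [Real.exp_le_one_iff, him0]
        have : 0 ≤ lam * z.re ^ 2 := by positivity
        nlinarith
      calc ‖G z‖ * Real.exp (-(lam * (z.re ^ 2 - z.im ^ 2 + 2 * z.im))) ≤ δ * 1 := by gcongr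
        _ ≤ C := by rw [hC, mul_one]; have := Real.exp_pos (-lam); nlinarith
    · have hz3 : 0 < z.im := lt_of_le_of_ne hz2' (Ne.symm him0)
      have hz4 : ‖z‖ = 1 := by
        by_contra hne
        apply hzn
        refine ⟨?_, hz3⟩
        rw [mem_ball_zero_iff]
        exact lt_of_le_of_ne hz1 hne
      have h3 := h1 z hz1
      have h4 : Real.exp (-(lam * (z.re ^ 2 - z.im ^ 2 + 2 * z.im))) ≤ Real.exp (-lam) := by
        rw [Real.exp_le_exp]
        have him1 : z.im ≤ 1 := (Complex.im_le_norm z).trans hz1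
        have h5 : 1 ≤ z.re ^ 2 - z.im ^ 2 + 2 * z.im := by
          rw [hz4] at hnsq
          nlinarith
        nlinarith
      calc ‖G z‖ * Real.exp (-(lam * (z.re ^ 2 - z.im ^ 2 + 2 * z.im)))
          ≤ M * Real.exp (-lam) := by gcongr
        _ ≤ C := by rw [hC]; linarith
  have hexp1 : 1 ≤ Real.exp (3 / 4 * lam) := Real.one_le_exp (by positivity)
  rcases eq_or_lt_of_le him with him0 | hpos
  · have hsr : s = (s.re : ℂ) := by
      apply Complex.ext <;> simp [← him0]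
    have h3 : ‖G s‖ ≤ δ := by
      rw [hsr]
      apply h2
      exact (Complex.abs_re_le_norm s).trans (by linarith)
    have h4 : 0 ≤ Real.exp (-(1 / 4 * lam)) * M := by positivity
    nlinarith
  · have hsU : s ∈ closure U := by
      apply subset_closure
      refine ⟨?_, hpos⟩
      rw [mem_ball_zero_iff]
      linarith
    have hmax := Complex.norm_le_of_forall_mem_frontier_norm_le hUb hΦc hfr hsU
    rw [hnorm] at hmax
    have hnsq : s.re ^ 2 + s.im ^ 2 = ‖s‖ ^ 2 := by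
      rw [← Complex.normSq_eq_norm_sq, Complex.normSq_apply]; ring
    have him1 : s.im ≤ 1 / 2 := (Complex.im_le_norm s).trans hs
    have hu : s.re ^ 2 - s.im ^ 2 + 2 * s.im ≤ 3 / 4 := by
      have h5 : ‖s‖ ^ 2 ≤ 1 / 4 := by
        have := norm_nonneg s
        nlinarith
      nlinarith
    have h6 : Real.exp (-(3 / 4 * lam)) ≤
        Real.exp (-(lam * (s.re ^ 2 - s.im ^ 2 + 2 * s.im))) := by
      rw [Real.exp_le_exp]
      nlinarith
    have h7 : ‖G s‖ * Real.exp (-(3 / 4 * lam)) ≤ C :=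
      le_trans (by gcongr) hmax
    have h8 : ‖G s‖ ≤ Real.exp (3 / 4 * lam) * C := by
      have h9 : Real.exp (-(3 / 4 * lam)) * Real.exp (3 / 4 * lam) = 1 := by
        rw [← Real.exp_add]; simp
      calc ‖G s‖ = (‖G s‖ * Real.exp (-(3 / 4 * lam))) * Real.exp (3 / 4 * lam) := by
            rw [mul_assoc, h9, mul_one]
        _ ≤ C * Real.exp (3 / 4 * lam) := by gcongr
        _ = Real.exp (3 / 4 * lam) * C := by ring
    refine h8.trans (le_of_eq ?_)
    rw [hC, mul_add, ← mul_assoc, ← Real.exp_add]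
    congr 3
    ring

/-- Two constants estimate on the disc. -/
lemma two_constants {G : ℂ → ℂ} (hG : DifferentiableOn ℂ G (ball 0 2)) {M δ lam : ℝ}
    (hM : 0 ≤ M) (hδ : 0 ≤ δ) (hlam : 0 ≤ lam)
    (h1 : ∀ s : ℂ, ‖s‖ ≤ 1 → ‖G s‖ ≤ M)
    (h2 : ∀ x : ℝ, |x| ≤ 1 → ‖G x‖ ≤ δ) {s : ℂ} (hs : ‖s‖ ≤ 1 / 2) :
    ‖G s‖ ≤ Real.exp (3 / 4 * lam) * δ + Real.exp (-(1 / 4 * lam)) * M := by
  rcases le_total 0 s.im with him | him
  · exact two_constants_aux hG hM hδ hlam h1 h2 hs him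
  · have := two_constants_aux (G := fun s => G (-s)) (M := M) (δ := δ) (lam := lam)
      (hG.comp (differentiable_neg.differentiableOn) (by
        intro s hs
        simpa using hs)) hM hδ hlam (fun s hs => h1 (-s) (by simpa using hs))
      (fun x hx => by
        have := h2 (-x) (by simpa using hx)
        simpa using this) (s := -s) (by simpa using hs) (by simpa using him)
    simpa using this

end Pool.Agent.Lib.MP_5011cf_an
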