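import Mathlib

open Metric Set Filter Topology MeasureTheory
open scoped Real

namespace Pool.Agent.Lib.MP_5011cf_an

/-- point of the unit circle -/
noncomputable def e (θ : ℝ) : ℂ := circleMap 0 1 θ

lemma e_eq (θ : ℝ) : e θ = Complex.exp (θ * Complex.I) := by simp [e, circleMap]

lemma norm_e (θ : ℝ) : ‖e θ‖ = 1 := by rw [e_eq]; exact Complex.norm_exp_ofReal_mul_I θ

lemma continuous_e : Continuous e := by unfold e; fun_prop

lemma norm_e_sub_le (θ φ : ℝ) : ‖e θ - e φ‖ ≤ |θ - φ| := by
  have h := (lipschitzWith_circleMap 0 1).dist_le_mul θ φ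
  rw [dist_eq_norm, Real.dist_eq] at h
  simpa [e] using h

lemma e_periodic : Function.Periodic e (2 * π) := periodic_circleMap 0 1

/-- Poisson kernel on the circle -/
noncomputable def Pk (w : ℂ) (θ : ℝ) : ℝ := (1 - ‖w‖ ^ 2) / ‖e θ - w‖ ^ 2

lemma Pk_eq (w : ℂ) (θ : ℝ) : Pk w θ = poissonKernel 0 w (circleMap 0 1 θ) := by
  rw [poissonKernel_def, Pk]
  simp only [sub_zero]
  have h : ‖circleMap 0 1 θ‖ = 1 := norm_e θ
  rw [h, one_pow]
  rfl

lemma e_sub_ne {w : ℂ} (hw : ‖w‖ < 1) (θ : ℝ) : 1 - ‖w‖ ≤ ‖e θ - w‖ := by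
  have := norm_sub_norm_le (e θ) w
  rwa [norm_e] at this

lemma Pk_nonneg {w : ℂ} (hw : ‖w‖ < 1) (θ : ℝ) : 0 ≤ Pk w θ := by
  unfold Pk
  have : ‖w‖ ^ 2 ≤ 1 := by
    have := norm_nonneg w
    nlinarith
  apply div_nonneg _ (by positivity)
  linarith

lemma continuous_Pk {w : ℂ} (hw : ‖w‖ < 1) : Continuous (Pk w) := by
  unfold Pk
  apply Continuous.div continuous_const
  · have := continuous_e
    fun_prop
  · intro θ
    have := e_sub_ne hw θ
    have : 0 < ‖e θ - w‖ := by linarith
    positivity

lemma Pk_le {w : ℂ} (hw : ‖w‖ < 1) (θ : ℝ) : Pk w θ ≤ 2 / (1 - ‖w‖) := by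
  unfold Pk
  have h1 := e_sub_ne hw θ
  have h0 : 0 < 1 - ‖w‖ := by linarith
  have h2 : 0 < ‖e θ - w‖ := by linarith
  rw [div_le_div_iff₀ (by positivity) h0]
  have h3 : (1 - ‖w‖) ^ 2 ≤ ‖e θ - w‖ ^ 2 := by gcongr
  have h4 := norm_nonneg w
  nlinarith [mul_nonneg h4 h0.le]

lemma Pk_symm (r θ t : ℝ) : Pk (r * e θ) t = Pk (r * e t) θ := by
  unfold Pk
  have h1 : ‖(r : ℂ) * e θ‖ = ‖(r : ℂ) * e t‖ := by
    rw [norm_mul, norm_mul, norm_e, norm_e]
  have h2 : ‖e t - r * e θ‖ ^ 2 = ‖e θ - r * e t‖ ^ 2 := by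
    rw [← Complex.normSq_eq_norm_sq, ← Complex.normSq_eq_norm_sq, Complex.normSq_sub,
      Complex.normSq_sub]
    have e1 : Complex.normSq (e t) = 1 := by rw [Complex.normSq_eq_norm_sq, norm_e]; norm_num
    have e2 : Complex.normSq (e θ) = 1 := by rw [Complex.normSq_eq_norm_sq, norm_e]; norm_num
    rw [Complex.normSq_mul, Complex.normSq_mul, e1, e2]
    have e3 : (e t * (starRingEnd ℂ) (r * e θ)).re = (e θ * (starRingEnd ℂ) (r * e t)).re := by
      simp only [map_mul, Complex.conj_ofReal, Complex.mul_re, Complex.conj_re, Complex.conj_im,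
        Complex.mul_im, Complex.ofReal_re, Complex.ofReal_im]
      ring
    rw [e3]
  rw [h1, h2]

/-- indicator of the complement of `K` -/
noncomputable def chi (K : Set ℂ) (ζ : ℂ) : ℝ := Kᶜ.indicator (fun _ => (1 : ℝ)) ζ

lemma chi_nonneg (K : Set ℂ) (ζ : ℂ) : 0 ≤ chi K ζ := indicator_nonneg (by simp) _

lemma chi_le_one (K : Set ℂ) (ζ : ℂ) : chi K ζ ≤ 1 := by
  unfold chi
  exact indicator_le_self' (by simp) _

lemma chi_of_mem {K : Set ℂ} {ζ : ℂ} (h : ζ ∈ K) : chi K ζ = 0 := by
  unfold chi
  exact indicator_of_notMem (by simpa using h) _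

lemma chi_of_notMem {K : Set ℂ} {ζ : ℂ} (h : ζ ∉ K) : chi K ζ = 1 := by
  unfold chi
  exact indicator_of_mem (by simpa using h) _

lemma measurable_chi {K : Set ℂ} (hK : IsClosed K) : Measurable (chi K) := by
  unfold chi
  exact measurable_const.indicator hK.measurableSet.compl

lemma measurable_chi_e {K : Set ℂ} (hK : IsClosed K) : Measurable (fun θ => chi K (e θ)) :=
  (measurable_chi hK).comp continuous_e.measurable

lemma circleIntegrable_chi {K : Set ℂ} (hK : IsClosed K) : CircleIntegrable (chi K) 0 1 := by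
  unfold CircleIntegrable
  rw [intervalIntegrable_iff]
  apply Measure.integrableOn_of_bounded (M := 1)
  · rw [uIoc]; exact measure_Ioc_lt_top.ne
  · exact (measurable_chi_e hK).aestronglyMeasurable
  · refine Eventually.of_forall fun θ => ?_
    rw [Real.norm_of_nonneg (chi_nonneg _ _)]
    exact chi_le_one _ _

/-- The holomorphic completion of the Poisson integral of `1_{Kᶜ}`. -/
noncomputable def V (K : Set ℂ) (w : ℂ) : ℂ :=
  Real.circleAverage (fun ζ => herglotzRieszKernel 0 w ζ • ((chi K ζ : ℝ) : ℂ)) 0 1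

lemma differentiableOn_V {K : Set ℂ} (hK : IsClosed K) : DifferentiableOn ℂ (V K) (ball 0 1) := by
  unfold V
  apply differentiableOn_circleAverage_herglotzRieszKernel_smul
  have := circleIntegrable_chi hK
  unfold CircleIntegrable at this ⊢
  rw [intervalIntegrable_iff] at this ⊢
  exact Integrable.ofReal this

lemma re_V {K : Set ℂ} (hK : IsClosed K) {w : ℂ} (hw : ‖w‖ < 1) :
    (V K w).re = (2 * π)⁻¹ * ∫ θ in (0 : ℝ)..2 * π, Pk w θ * chi K (e θ) := by
  unfold V
  rw [re_circleAverage_herglotzRieszKernel_smul (circleIntegrable_chi hK) (by simpa using hw),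
    Real.circleAverage_def, smul_eq_mul, ← poissonKernel_eq_re_herglotzRieszKernel]
  congr 1
  apply intervalIntegral.integral_congr
  intro θ _
  simp only [Pi.smul_apply', smul_eq_mul]
  rw [Pk_eq]
  rfl

lemma intInt {K : Set ℂ} (hK : IsClosed K) {w : ℂ} (hw : ‖w‖ < 1) (a b : ℝ) :
    IntervalIntegrable (fun θ => Pk w θ * chi K (e θ)) volume a b := by
  rw [intervalIntegrable_iff]
  apply Measure.integrableOn_of_bounded (M := 2 / (1 - ‖w‖))
  · rw [uIoc]; exact measure_Ioc_lt_top.ne
  · exact ((continuous_Pk hw).measurable.mul (measurable_chi_e hK)).aestronglyMeasurable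
  · refine Eventually.of_forall fun θ => ?_
    have h1 := Pk_nonneg hw θ
    have h2 := Pk_le hw θ
    have h3 := chi_nonneg K (e θ)
    have h4 := chi_le_one K (e θ)
    rw [Real.norm_of_nonneg (mul_nonneg h1 h3)]
    nlinarith

lemma re_V_nonneg {K : Set ℂ} (hK : IsClosed K) {w : ℂ} (hw : ‖w‖ < 1) : 0 ≤ (V K w).re := by
  rw [re_V hK hw]
  apply mul_nonneg (by positivity)
  apply intervalIntegral.integral_nonneg (by positivity)
  intro θ _
  exact mul_nonneg (Pk_nonneg hw θ) (chi_nonneg _ _)

/-- Lower bound of the Poisson integral away from the sawtooth region. -/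
lemma re_V_lower {K : Set ℂ} (hK : IsClosed K) {w : ℂ} (hw : ‖w‖ < 1)
    (hfar : ∀ θ : ℝ, e θ ∈ K → (1 - ‖w‖) / 4 < ‖w - ‖w‖ * e θ‖) :
    4 / (25 * π) ≤ (V K w).re := by
  rw [re_V hK hw]
  set φ := Complex.arg w with hφ
  set r := ‖w‖ with hr
  have hr0 : 0 ≤ r := norm_nonneg w
  have hwe : w = r * e φ := by
    rw [e_eq, hr, hφ, Complex.norm_mul_exp_arg_mul_I]
  set a := (1 - r) / 4 with ha
  have ha0 : 0 < a := by rw [ha]; linarith
  have haπ : a ≤ π := by
    have := Real.pi_gt_three
    rw [ha]; linarith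
  have hper : Function.Periodic (fun θ => Pk w θ * chi K (e θ)) (2 * π) := by
    intro θ
    simp only [Pk, e_periodic θ]
  have hshift := hper.intervalIntegral_add_eq 0 (φ - π)
  rw [zero_add] at hshift
  rw [hshift]
  have hend : φ - π + 2 * π = φ + π := by ring
  rw [hend]
  have h1 : ∫ θ in (φ - a)..(φ + a), Pk w θ * chi K (e θ) ≤
      ∫ θ in (φ - π)..(φ + π), Pk w θ * chi K (e θ) := by
    apply intervalIntegral.integral_mono_interval (by linarith) (by linarith) (by linarith)
    · refine Eventually.of_forall fun θ => ?_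
      exact mul_nonneg (Pk_nonneg hw θ) (chi_nonneg _ _)
    · exact intInt hK hw _ _
  have h2 : ∫ θ in (φ - a)..(φ + a), (16 / 25 / (1 - r)) ≤
      ∫ θ in (φ - a)..(φ + a), Pk w θ * chi K (e θ) := by
    apply intervalIntegral.integral_mono_on (by linarith) (by simp) (intInt hK hw _ _)
    intro θ hθ
    have habs : |θ - φ| ≤ a := by
      rw [abs_le]; constructor <;> linarith [hθ.1, hθ.2]
    have hnot : e θ ∉ K := by
      intro hc
      have h3 := hfar θ hc
      have h4 : w - r * e θ = r * (e φ - e θ) := by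
        conv_lhs => rw [hwe]
        ring
      rw [h4, norm_mul, Complex.norm_real, Real.norm_of_nonneg hr0] at h3
      have h5 := norm_e_sub_le φ θ
      rw [abs_sub_comm] at h5
      have h6 : r * ‖e φ - e θ‖ ≤ 1 * a := by
        apply mul_le_mul hw.le (h5.trans habs) (norm_nonneg _) zero_le_one
      linarith
    rw [chi_of_notMem hnot, mul_one, Pk]
    have h7 : ‖e θ - w‖ ≤ 5 / 4 * (1 - r) := by
      have h8 : e θ - w = (e θ - e φ) + ((1 - r : ℝ) : ℂ) * e φ := by
        conv_lhs => rw [hwe]
        push_cast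
        ring
      rw [h8]
      calc ‖(e θ - e φ) + ((1 - r : ℝ) : ℂ) * e φ‖
          ≤ ‖e θ - e φ‖ + ‖((1 - r : ℝ) : ℂ) * e φ‖ := norm_add_le _ _
        _ ≤ a + (1 - r) := by
            rw [norm_mul, norm_e, mul_one, Complex.norm_real, Real.norm_of_nonneg (by linarith)]
            have := (norm_e_sub_le θ φ).trans habs
            linarith
        _ = 5 / 4 * (1 - r) := by rw [ha]; ring
    have h9 : 0 < ‖e θ - w‖ := lt_of_lt_of_le (by linarith) (e_sub_ne hw θ)
    have h10 : ‖e θ - w‖ ^ 2 ≤ (5 / 4 * (1 - r)) ^ 2 := by gcongr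
    have h11 : 0 < 1 - r := by linarith
    rw [div_le_div_iff₀ h11 (by positivity)]
    calc 16 / 25 * ‖e θ - w‖ ^ 2 ≤ 16 / 25 * (5 / 4 * (1 - r)) ^ 2 := by gcongr
      _ = (1 - r) ^ 2 := by ring
      _ ≤ (1 - r ^ 2) * (1 - r) := by nlinarith [mul_nonneg hr0 (sq_nonneg (1 - r))]
  rw [intervalIntegral.integral_const, smul_eq_mul] at h2
  have h3 : (φ + a - (φ - a)) * (16 / 25 / (1 - r)) = 8 / 25 := by
    have : 1 - r ≠ 0 := by linarith
    rw [ha]
    field_simp
    ring
  rw [h3] at h2
  have h4 : 8 / 25 ≤ ∫ θ in (φ - π)..(φ + π), Pk w θ * chi K (e θ) := h2.trans h1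
  calc 4 / (25 * π) = (2 * π)⁻¹ * (8 / 25) := by field_simp; norm_num
    _ ≤ _ := by gcongr

lemma integral_Pk {w : ℂ} (hw : ‖w‖ < 1) : ∫ θ in (0 : ℝ)..2 * π, Pk w θ = 2 * π := by
  have h := DiffContOnCl.circleAverage_poissonKernel_smul (f := fun _ : ℂ => (1 : ℂ)) (R := 1)
    (c := 0) (w := w) diffContOnCl_const (by simpa using hw)
  rw [Real.circleAverage_def] at h
  have h1 : ∫ θ in (0 : ℝ)..2 * π, (poissonKernel 0 w • fun _ : ℂ => (1 : ℂ)) (circleMap 0 1 θ)
      = ((∫ θ in (0 : ℝ)..2 * π, Pk w θ : ℝ) : ℂ) := by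
    rw [← intervalIntegral.integral_ofReal]
    apply intervalIntegral.integral_congr
    intro θ _
    simp only [Pi.smul_apply']
    rw [Pk_eq]
    simp
  rw [h1] at h
  have h2 := congrArg Complex.re h
  rw [Complex.real_smul, ← Complex.ofReal_mul, Complex.ofReal_re, Complex.one_re] at h2
  have hπ : (2 * π) ≠ 0 := by positivity
  field_simp at h2
  linarith

lemma exists_re_V_lt {K : Set ℂ} (hK : IsClosed K)
    (hpos : 0 < volume ({θ : ℝ | e θ ∈ K} ∩ Ioc 0 (2 * π))) {ε : ℝ} (hε : 0 < ε) :
    ∃ w : ℂ, ‖w‖ < 1 ∧ (V K w).re < ε := by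
  by_contra hcon
  push Not at hcon
  set μ : Measure ℝ := volume.restrict (Ioc 0 (2 * π)) with hμ
  have hfin : IsFiniteMeasure μ := by
    rw [hμ]
    exact ⟨by rw [Measure.restrict_apply_univ]; exact measure_Ioc_lt_top⟩
  have h2π : (0 : ℝ) ≤ 2 * π := by positivity
  let ich : ℝ → ℝ := fun θ => 1 - chi K (e θ)
  have hich_meas : Measurable ich := measurable_const.sub (measurable_chi_e hK)
  have hich0 : ∀ θ, 0 ≤ ich θ := fun θ => by
    have := chi_le_one K (e θ); simp only [ich]; linarith
  have hich1 : ∀ θ, ich θ ≤ 1 := fun θ => by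
    have := chi_nonneg K (e θ); simp only [ich]; linarith
  let r : ℕ → ℝ := fun n => 1 - 1 / ((n : ℝ) + 2)
  have hr0 : ∀ n, 0 ≤ r n := by
    intro n
    have h1 : (1 : ℝ) ≤ (n : ℝ) + 2 := by
      have : (0 : ℝ) ≤ n := Nat.cast_nonneg n
      linarith
    have h2 : 1 / ((n : ℝ) + 2) ≤ 1 := by
      rw [div_le_one (by positivity)]; exact h1
    simp only [r]; linarith
  have hr1 : ∀ n, r n < 1 := by
    intro n
    have : 0 < 1 / ((n : ℝ) + 2) := by positivity
    simp only [r]; linarith
  have hrlim : Tendsto r atTop (𝓝 1) := by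
    have h1 : Tendsto (fun n : ℕ => 1 / ((n : ℝ) + 2)) atTop (𝓝 0) := by
      have h2 : Tendsto (fun n : ℕ => (n : ℝ) + 2) atTop atTop :=
        tendsto_atTop_add_const_right _ _ tendsto_natCast_atTop_atTop
      refine h2.inv_tendsto_atTop.congr fun n => ?_
      simp
    have h3 := h1.const_sub 1
    simpa [r] using h3
  have hre : ∀ n θ, ‖(r n : ℂ) * e θ‖ = r n := by
    intro n θ
    rw [norm_mul, norm_e, mul_one, Complex.norm_real, Real.norm_of_nonneg (hr0 n)]
  have hre1 : ∀ n θ, ‖(r n : ℂ) * e θ‖ < 1 := fun n θ => by rw [hre]; exact hr1 n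
  -- rewriting of Re V
  have hV : ∀ n θ, (V K (r n * e θ)).re = (2 * π)⁻¹ * ∫ t, Pk (r n * e θ) t * chi K (e t) ∂μ := by
    intro n θ
    rw [re_V hK (hre1 n θ), intervalIntegral.integral_of_le h2π]
  -- joint measurability
  have hPk_meas : ∀ n, Measurable (fun p : ℝ × ℝ => Pk (r n * e p.1) p.2) := by
    intro n
    unfold Pk
    have := continuous_e.measurable
    fun_prop
  have hPk_b : ∀ n θ t, ‖Pk (r n * e θ) t‖ ≤ 2 / (1 - r n) := by
    intro n θ t
    rw [Real.norm_of_nonneg (Pk_nonneg (hre1 n θ) t)]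
    have := Pk_le (hre1 n θ) t
    rwa [hre] at this
  -- the double integral
  have hprod : ∀ n, Integrable
      (Function.uncurry fun θ t : ℝ => ich θ * (Pk (r n * e θ) t * chi K (e t))) (μ.prod μ) := by
    intro n
    apply Integrable.of_bound (C := 2 / (1 - r n))
    · apply Measurable.aestronglyMeasurable
      have m1 := hPk_meas n
      have m2 := measurable_chi_e hK
      unfold Function.uncurry
      exact (hich_meas.comp measurable_fst).mul (m1.mul (m2.comp measurable_snd))
    · refine Eventually.of_forall fun p => ?_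
      simp only [Function.uncurry]
      rw [norm_mul, norm_mul, Real.norm_of_nonneg (hich0 _), Real.norm_of_nonneg (chi_nonneg _ _)]
      have h1 := hPk_b n p.1 p.2
      have h2 := hich1 p.1
      have h3 := chi_le_one K (e p.2)
      have h4 := chi_nonneg K (e p.2)
      have h5 := hich0 p.1
      have h6 := norm_nonneg (Pk (r n * e p.1) p.2)
      calc ich p.1 * (‖Pk (r n * e p.1) p.2‖ * chi K (e p.2))
          ≤ 1 * (‖Pk (r n * e p.1) p.2‖ * 1) := by gcongr
        _ ≤ 2 / (1 - r n) := by linarith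
  -- lower bound
  have hlow : ∀ n, ε * μ.real {θ | e θ ∈ K} ≤
      (2 * π)⁻¹ * ∫ θ, (∫ t, ich θ * (Pk (r n * e θ) t * chi K (e t)) ∂μ) ∂μ := by
    intro n
    have h1 : (fun θ => ∫ t, ich θ * (Pk (r n * e θ) t * chi K (e t)) ∂μ)
        = fun θ => ich θ * ((2 * π) * (V K (r n * e θ)).re) := by
      ext θ
      rw [integral_const_mul, hV n θ]
      have : (2 * π) ≠ 0 := by positivity
      field_simp
    rw [h1]
    have h2 : ∫ θ, ich θ * ((2 * π) * ε) ∂μ ≤ ∫ θ, ich θ * ((2 * π) * (V K (r n * e θ)).re) ∂μ := by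
      apply integral_mono
      · apply Integrable.of_bound (C := (2 * π) * ε)
        · exact (hich_meas.mul_const _).aestronglyMeasurable
        · refine Eventually.of_forall fun θ => ?_
          rw [Real.norm_of_nonneg (mul_nonneg (hich0 θ) (by positivity))]
          have := hich1 θ
          have h3 : 0 ≤ (2 * π) * ε := by positivity
          nlinarith
      · rw [← h1]
        exact (hprod n).integral_prod_left
      · intro θ
        have := hcon _ (hre1 n θ)
        have h3 := hich0 θ
        have : (2 * π) * ε ≤ (2 * π) * (V K (r n * e θ)).re := by gcongr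
        exact mul_le_mul_of_nonneg_left this h3
    have h3 : ∫ θ, ich θ * ((2 * π) * ε) ∂μ = μ.real {θ | e θ ∈ K} * ((2 * π) * ε) := by
      rw [integral_mul_const]
      congr 1
      have h4 : ich = ({θ | e θ ∈ K} : Set ℝ).indicator 1 := by
        ext θ
        by_cases h : e θ ∈ K
        · simp only [ich]
          rw [chi_of_mem h, indicator_of_mem (by exact h)]
          simp
        · simp only [ich]
          rw [chi_of_notMem h, indicator_of_notMem (by exact h)]
          simp
      rw [h4, integral_indicator_one]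
      exact (hK.preimage continuous_e).measurableSet
    calc ε * μ.real {θ | e θ ∈ K} = (2 * π)⁻¹ * (μ.real {θ | e θ ∈ K} * ((2 * π) * ε)) := by
          field_simp
      _ ≤ _ := by
          rw [← h3]
          gcongr
  -- swap
  have hswap : ∀ n, ∫ θ, (∫ t, ich θ * (Pk (r n * e θ) t * chi K (e t)) ∂μ) ∂μ
      = ∫ t, chi K (e t) * (∫ θ, ich θ * Pk (r n * e t) θ ∂μ) ∂μ := by
    intro n
    rw [integral_integral_swap (hprod n)]
    congr 1
    ext t
    rw [← integral_const_mul]
    congr 1
    ext θ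
    rw [Pk_symm]
    ring
  -- dominated convergence
  have hU0 : ∀ n t, 0 ≤ ∫ θ, ich θ * Pk (r n * e t) θ ∂μ := by
    intro n t
    apply integral_nonneg
    intro θ
    exact mul_nonneg (hich0 θ) (Pk_nonneg (hre1 n t) θ)
  have hPkint : ∀ n t, Integrable (fun θ => Pk (r n * e t) θ) μ := by
    intro n t
    apply Integrable.of_bound (C := 2 / (1 - r n))
    · exact (continuous_Pk (hre1 n t)).aestronglyMeasurable
    · exact Eventually.of_forall fun θ => hPk_b n t θ
  have hU1 : ∀ n t, ∫ θ, ich θ * Pk (r n * e t) θ ∂μ ≤ 2 * π := by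
    intro n t
    have h1 := integral_Pk (hre1 n t)
    rw [intervalIntegral.integral_of_le h2π] at h1
    rw [← h1]
    apply integral_mono_of_nonneg
    · exact Eventually.of_forall fun θ => mul_nonneg (hich0 θ) (Pk_nonneg (hre1 n t) θ)
    · exact hPkint n t
    · refine Eventually.of_forall fun θ => ?_
      have h2 := Pk_nonneg (hre1 n t) θ
      have h3 := hich1 θ
      simp only
      nlinarith
  have hlim : Tendsto (fun n => ∫ t, chi K (e t) * (∫ θ, ich θ * Pk (r n * e t) θ ∂μ) ∂μ) atTop
      (𝓝 (∫ _t, (0 : ℝ) ∂μ)) := by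
    apply tendsto_integral_of_dominated_convergence (fun _ => 2 * π)
    · intro n
      have h1 : (fun t => chi K (e t) * (∫ θ, ich θ * Pk (r n * e t) θ ∂μ))
          = fun t => ∫ θ, ich θ * (Pk (r n * e θ) t * chi K (e t)) ∂μ := by
        ext t
        rw [← integral_const_mul]
        congr 1
        ext θ
        rw [Pk_symm]
        ring
      rw [h1]
      exact (hprod n).integral_prod_right.aestronglyMeasurable
    · exact integrable_const _
    · intro n
      refine Eventually.of_forall fun t => ?_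
      rw [Real.norm_of_nonneg (mul_nonneg (chi_nonneg _ _) (hU0 n t))]
      have h1 := chi_le_one K (e t)
      have h2 := hU0 n t
      have h3 := hU1 n t
      have h4 := chi_nonneg K (e t)
      nlinarith
    · refine Eventually.of_forall fun t => ?_
      by_cases ht : e t ∈ K
      · simp only [chi_of_mem ht, zero_mul]
        exact tendsto_const_nhds
      · obtain ⟨d, hd0, hd⟩ : ∃ d > 0, ball (e t) d ⊆ Kᶜ :=
          Metric.isOpen_iff.mp hK.isOpen_compl (e t) ht
        have hbound : ∀ᶠ n in atTop, chi K (e t) * (∫ θ, ich θ * Pk (r n * e t) θ ∂μ) ≤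
            (1 - r n ^ 2) * (4 / d ^ 2) * μ.real univ := by
          have h1 : ∀ᶠ n in atTop, 1 - d / 2 < r n :=
            hrlim.eventually (lt_mem_nhds (by linarith))
          filter_upwards [h1] with n hn
          rw [chi_of_notMem ht, one_mul]
          calc ∫ θ, ich θ * Pk (r n * e t) θ ∂μ ≤ ∫ _θ, (1 - r n ^ 2) * (4 / d ^ 2) ∂μ := by
                apply integral_mono_of_nonneg
                · exact Eventually.of_forall fun θ =>
                    mul_nonneg (hich0 θ) (Pk_nonneg (hre1 n t) θ)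
                · exact integrable_const _
                · refine Eventually.of_forall fun θ => ?_
                  have hr2 : 0 ≤ 1 - r n ^ 2 := by
                    have := hr0 n
                    have := hr1 n
                    nlinarith
                  simp only
                  by_cases hθ : e θ ∈ K
                  · have h2 : d ≤ ‖e θ - e t‖ := by
                      by_contra hlt
                      push Not at hlt
                      have : e θ ∈ ball (e t) d := by rwa [mem_ball, dist_eq_norm]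
                      exact hd this hθ
                    have h3 : d / 2 ≤ ‖e θ - r n * e t‖ := by
                      have h4 : e θ - e t = (e θ - r n * e t) - ((1 - r n : ℝ) : ℂ) * e t := by
                        push_cast; ring
                      have h5 := norm_sub_le (e θ - r n * e t) (((1 - r n : ℝ) : ℂ) * e t)
                      rw [← h4, norm_mul, norm_e, mul_one, Complex.norm_real,
                        Real.norm_of_nonneg (by linarith [hr1 n])] at h5
                      linarith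
                    have h6 : Pk (r n * e t) θ ≤ (1 - r n ^ 2) * (4 / d ^ 2) := by
                      unfold Pk
                      rw [hre]
                      have h7 : (d / 2) ^ 2 ≤ ‖e θ - r n * e t‖ ^ 2 := by gcongr
                      calc (1 - r n ^ 2) / ‖e θ - r n * e t‖ ^ 2
                          ≤ (1 - r n ^ 2) / (d / 2) ^ 2 := by gcongr
                        _ = (1 - r n ^ 2) * (4 / d ^ 2) := by field_simp; norm_num
                    have h8 := hich1 θ
                    have h9 := hich0 θ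
                    have h10 := Pk_nonneg (hre1 n t) θ
                    nlinarith
                  · have : ich θ = 0 := by simp only [ich]; rw [chi_of_notMem hθ]; ring
                    rw [this, zero_mul]
                    positivity
            _ = (1 - r n ^ 2) * (4 / d ^ 2) * μ.real univ := by
                rw [integral_const, smul_eq_mul]; ring
        have hlim2 : Tendsto (fun n => (1 - r n ^ 2) * (4 / d ^ 2) * μ.real univ) atTop (𝓝 0) := by
          have h1 : Tendsto (fun n => 1 - r n ^ 2) atTop (𝓝 (1 - 1 ^ 2)) :=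
            (hrlim.pow 2).const_sub 1
          have h2 := (h1.mul_const (4 / d ^ 2)).mul_const (μ.real univ)
          simpa using h2
        apply tendsto_of_tendsto_of_tendsto_of_le_of_le' tendsto_const_nhds hlim2 _ hbound
        exact Eventually.of_forall fun n => mul_nonneg (chi_nonneg _ _) (hU0 n t)
  have hfinal : Tendsto (fun n => (2 * π)⁻¹ *
      ∫ θ, (∫ t, ich θ * (Pk (r n * e θ) t * chi K (e t)) ∂μ) ∂μ) atTop (𝓝 0) := by
    have h1 := hlim.const_mul (2 * π)⁻¹
    simp only [integral_zero, mul_zero] at h1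
    refine h1.congr fun n => ?_
    rw [hswap n]
  have hle : ε * μ.real {θ | e θ ∈ K} ≤ 0 := ge_of_tendsto hfinal (Eventually.of_forall hlow)
  have hpos' : 0 < μ.real {θ | e θ ∈ K} := by
    have hm : MeasurableSet {θ : ℝ | e θ ∈ K} := (hK.preimage continuous_e).measurableSet
    rw [Measure.real, hμ, Measure.restrict_apply hm]
    apply ENNReal.toReal_pos hpos.ne'
    apply ne_top_of_le_ne_top (b := volume (Ioc (0 : ℝ) (2 * π))) measure_Ioc_lt_top.ne
    exact measure_mono inter_subset_right
  nlinarith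

end Pool.Agent.Lib.MP_5011cf_an
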