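import Mathlib
import Pool.Agent.Lib.MP_5011cf_an.Bloch

open Metric Set Filter Topology

namespace Pool.Agent.Lib.MP_5011cf_an

/-- Uniform radial convergence of `f'` on a set `F` of angles implies uniform convergence on small
discs around the radii. -/
lemma radial_to_disc {f : ℂ → ℂ} (hd : DifferentiableOn ℂ f (ball 0 1))
    (hinj : InjOn f (ball 0 1)) {c : ℂ} {F : Set ℝ}
    (hF : ∀ η : ℝ, 0 < η → ∃ ρ : ℝ, ρ < 1 ∧ ∀ θ ∈ F, ∀ r : ℝ, ρ ≤ r → r < 1 →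
      ‖deriv f (r * Complex.exp (θ * Complex.I)) - c‖ ≤ η) :
    ∀ η : ℝ, 0 < η → ∃ ρ : ℝ, ρ < 1 ∧ ∀ θ ∈ F, ∀ r : ℝ, ρ ≤ r → r < 1 →
      ∀ z : ℂ, ‖z - r * Complex.exp (θ * Complex.I)‖ ≤ (1 - r) / 4 → ‖deriv f z - c‖ ≤ η := by
  intro η hη
  obtain ⟨ρ₁, hρ₁, h1⟩ := hF 1 one_pos
  set L := Real.exp 65536 with hL
  have hL0 : 0 < L := Real.exp_pos _
  set M := (‖c‖ + 1) * L + ‖c‖ with hM
  have hM0 : 0 < M := by positivity
  obtain ⟨lam, hlam0, hlam⟩ : ∃ lam : ℝ, 0 ≤ lam ∧ Real.exp (-(1 / 4 * lam)) * M ≤ η / 2 := by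
    refine ⟨4 * max 0 (Real.log (2 * M / η)), by positivity, ?_⟩
    have e1 : -(1 / 4 * (4 * max 0 (Real.log (2 * M / η)))) = - max 0 (Real.log (2 * M / η)) := by
      ring
    rw [e1]
    have e2 : Real.exp (- max 0 (Real.log (2 * M / η))) ≤ Real.exp (- Real.log (2 * M / η)) := by
      rw [Real.exp_le_exp]
      exact neg_le_neg (le_max_right _ _)
    rw [Real.exp_neg (Real.log (2 * M / η)), Real.exp_log (by positivity)] at e2
    calc Real.exp (- max 0 (Real.log (2 * M / η))) * M ≤ (2 * M / η)⁻¹ * M := by gcongr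
      _ = η / 2 := by field_simp
  set δ := Real.exp (-(3 / 4 * lam)) * (η / 2) with hδ
  have hδ0 : 0 < δ := by positivity
  obtain ⟨ρ₂, hρ₂, h2⟩ := hF δ hδ0
  refine ⟨max (max 0 ρ₁) ((2 * ρ₂ + 1) / 3), ?_, ?_⟩
  · rw [max_lt_iff, max_lt_iff]
    refine ⟨⟨one_pos, hρ₁⟩, by linarith⟩
  intro θ hθ r hr hr1 z hz
  have hr0 : 0 ≤ r := (le_max_left _ _).trans ((le_max_left _ _).trans hr)
  have hrρ₁ : ρ₁ ≤ r := (le_max_right _ _).trans ((le_max_left _ _).trans hr)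
  have hrρ₂ : (2 * ρ₂ + 1) / 3 ≤ r := (le_max_right _ _).trans hr
  set ζ := Complex.exp (θ * Complex.I) with hζ
  have hζ1 : ‖ζ‖ = 1 := Complex.norm_exp_ofReal_mul_I θ
  have hζ0 : ζ ≠ 0 := Complex.exp_ne_zero _
  have h1r : 0 < 1 - r := by linarith
  have hrζ : ‖(r : ℂ) * ζ‖ = r := by
    rw [norm_mul, hζ1, mul_one, Complex.norm_real, Real.norm_of_nonneg hr0]
  -- the rescaled function
  let ℓ : ℂ → ℂ := fun s => r * ζ + s * (((1 - r) / 2 : ℝ) * ζ)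
  have hℓn : ∀ s : ℂ, ‖ℓ s - r * ζ‖ = ‖s‖ * ((1 - r) / 2) := by
    intro s
    simp only [ℓ, add_sub_cancel_left]
    rw [norm_mul, norm_mul, hζ1, mul_one, Complex.norm_real, Real.norm_of_nonneg (by linarith)]
  have hℓb : ∀ s ∈ ball (0 : ℂ) 2, ℓ s ∈ ball (0 : ℂ) 1 := by
    intro s hs
    rw [mem_ball_zero_iff] at hs ⊢
    have e1 := hℓn s
    have e2 : ‖ℓ s‖ ≤ ‖(r : ℂ) * ζ‖ + ‖ℓ s - r * ζ‖ := norm_le_norm_add_norm_sub' _ _
    rw [e1, hrζ] at e2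
    nlinarith
  have hGd : DifferentiableOn ℂ (fun s => deriv f (ℓ s) - c) (ball 0 2) := by
    apply DifferentiableOn.sub_const
    apply (hd.deriv isOpen_ball).comp (by fun_prop) hℓb
  have hG1 : ∀ s : ℂ, ‖s‖ ≤ 1 → ‖deriv f (ℓ s) - c‖ ≤ M := by
    intro s hs
    have e1 := h1 θ hθ r hrρ₁ hr1
    rw [← hζ] at e1
    have e2 : ‖deriv f (r * ζ)‖ ≤ ‖c‖ + 1 := by
      have := norm_le_norm_add_norm_sub' (deriv f (r * ζ)) c
      linarith
    have e3 := harnack hd hinj (z := r * ζ) (w := ℓ s) (by rw [hrζ]; exact hr1) (by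
      rw [hℓn, hrζ]; nlinarith)
    calc ‖deriv f (ℓ s) - c‖ ≤ ‖deriv f (ℓ s)‖ + ‖c‖ := norm_sub_le _ _
      _ ≤ (‖c‖ + 1) * L + ‖c‖ := by
        rw [← hL] at e3
        have : ‖deriv f (r * ζ)‖ * L ≤ (‖c‖ + 1) * L := by gcongr
        linarith
  have hG2 : ∀ x : ℝ, |x| ≤ 1 → ‖deriv f (ℓ x) - c‖ ≤ δ := by
    intro x hx
    rw [abs_le] at hx
    have e1 : ℓ x = ((r + x * ((1 - r) / 2) : ℝ) : ℂ) * ζ := by
      simp only [ℓ]
      push_cast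
      ring
    rw [e1]
    apply h2 θ hθ
    · nlinarith [hx.1]
    · nlinarith [hx.2]
  have hs : ‖(z - r * ζ) / (((1 - r) / 2 : ℝ) * ζ)‖ ≤ 1 / 2 := by
    rw [norm_div, norm_mul, hζ1, mul_one, Complex.norm_real, Real.norm_of_nonneg (by linarith),
      div_le_iff₀ (by linarith)]
    linarith
  have hfin := two_constants hGd hM0.le hδ0.le hlam0 hG1 hG2 hs
  have hℓs : ℓ ((z - r * ζ) / (((1 - r) / 2 : ℝ) * ζ)) = z := by
    simp only [ℓ]
    rw [div_mul_cancel₀]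
    · ring
    · apply mul_ne_zero _ hζ0
      have : ((1 - r) / 2 : ℝ) ≠ 0 := by positivity
      exact_mod_cast this
  simp only [hℓs] at hfin
  refine hfin.trans ?_
  have e5 : Real.exp (3 / 4 * lam) * δ = η / 2 := by
    rw [hδ, ← mul_assoc, ← Real.exp_add]
    simp
  rw [e5]
  linarith

end Pool.Agent.Lib.MP_5011cf_an
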