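import Mathlib
import Pool.Agent.Lib.MP_5011cf_an.Radial
import Pool.Agent.Lib.MP_5011cf_an.Poisson

open Metric Set Filter Topology MeasureTheory
open scoped Real ENNReal NNReal

namespace Pool.Agent.Lib.MP_5011cf_an

/-- Uniqueness: a holomorphic function tending to `0` uniformly in discs `B(r e^{iθ}, (1-r)/4)`
over a closed set of angles of positive measure vanishes. -/
lemma uniqueness {H : ℂ → ℂ} (hH : DifferentiableOn ℂ H (ball 0 1)) {K : Set ℂ}
    (hK : IsClosed K) (hpos : 0 < volume ({θ : ℝ | e θ ∈ K} ∩ Ioc 0 (2 * π)))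
    (hconv : ∀ η : ℝ, 0 < η → ∃ ρ : ℝ, ρ < 1 ∧ ∀ θ : ℝ, e θ ∈ K → ∀ r : ℝ, ρ ≤ r → r < 1 →
      ∀ z : ℂ, ‖z - r * e θ‖ ≤ (1 - r) / 4 → ‖H z‖ ≤ η) :
    ∀ z ∈ ball (0 : ℂ) 1, H z = 0 := by
  set c₁ : ℝ := 2 / (25 * π) with hc₁
  have hc₁0 : 0 < c₁ := by positivity
  have hc₁lt : c₁ < 4 / (25 * π) := by
    rw [hc₁]
    gcongr
    norm_num
  have hVd := differentiableOn_V hK
  have hreg : ∀ η : ℝ, 0 < η → ∃ ρ : ℝ, ρ < 1 ∧ ∀ z : ℂ, ρ ≤ ‖z‖ → ‖z‖ < 1 →
      (V K z).re ≤ c₁ → ‖H z‖ ≤ η := by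
    intro η hη
    obtain ⟨ρ, hρ, h⟩ := hconv η hη
    refine ⟨ρ, hρ, fun z hz1 hz2 hz3 => ?_⟩
    have hex : ∃ θ : ℝ, e θ ∈ K ∧ ‖z - ‖z‖ * e θ‖ ≤ (1 - ‖z‖) / 4 := by
      by_contra hcon
      push Not at hcon
      have := re_V_lower hK hz2 hcon
      linarith
    obtain ⟨θ, hθ, hzθ⟩ := hex
    exact h θ hθ ‖z‖ hz1 hz2 z hzθ
  -- global bound on the sublevel set
  obtain ⟨C, hC0, hC⟩ : ∃ C : ℝ, 0 < C ∧ ∀ z : ℂ, ‖z‖ < 1 → (V K z).re ≤ c₁ → ‖H z‖ ≤ C := by
    obtain ⟨ρ, hρ, h⟩ := hreg 1 one_pos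
    obtain ⟨C', hC'⟩ := (isCompact_closedBall (0 : ℂ) ρ).exists_bound_of_continuousOn
      (hH.continuousOn.mono (closedBall_subset_ball hρ))
    refine ⟨max 1 C', by positivity, fun z hz1 hz2 => ?_⟩
    rcases le_total ρ ‖z‖ with h1 | h1
    · exact (h z h1 hz1 hz2).trans (le_max_left _ _)
    · exact (hC' z (by simpa using h1)).trans (le_max_right _ _)
  -- vanishing on the sublevel set
  have hvan : ∀ z₀ : ℂ, ‖z₀‖ < 1 → (V K z₀).re < c₁ → H z₀ = 0 := by
    intro z₀ hz₀ hv₀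
    have hkey : ∀ lam : ℝ, 0 < lam → ‖H z₀‖ * Real.exp (lam * (1 - (V K z₀).re / c₁)) ≤ C := by
      intro lam hlam
      obtain ⟨ρ, hρ, hη⟩ := hreg (C * Real.exp (-lam)) (by positivity)
      obtain ⟨R, hR1, hR2⟩ := exists_between (max_lt hz₀ hρ)
      have hR3 : ‖z₀‖ < R := (le_max_left _ _).trans_lt hR1
      have hR4 : ρ < R := (le_max_right _ _).trans_lt hR1
      let Φ : ℂ → ℂ := fun z => H z * Complex.exp (lam * (1 - V K z / c₁))
      have hnorm : ∀ z, ‖Φ z‖ = ‖H z‖ * Real.exp (lam * (1 - (V K z).re / c₁)) := by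
        intro z
        simp only [Φ]
        rw [norm_mul, Complex.norm_exp]
        congr 2
        rw [Complex.re_ofReal_mul, Complex.sub_re, Complex.one_re, Complex.div_ofReal_re]
      set W : Set ℂ := ball (0 : ℂ) R ∩ (fun z => (V K z).re) ⁻¹' Iio c₁ with hW
      have hsub : closedBall (0 : ℂ) R ⊆ ball (0 : ℂ) 1 := closedBall_subset_ball hR2
      have hcV : ContinuousOn (fun z => (V K z).re) (closedBall (0 : ℂ) R) :=
        Complex.continuous_re.comp_continuousOn (hVd.continuousOn.mono hsub)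
      have hWo : IsOpen W :=
        (hcV.mono ball_subset_closedBall).isOpen_inter_preimage isOpen_ball isOpen_Iio
      have hWcl : closure W ⊆ closedBall (0 : ℂ) R ∩ (fun z => (V K z).re) ⁻¹' Iic c₁ := by
        apply closure_minimal
        · rintro z ⟨h1, h2⟩
          have h2' : (V K z).re < c₁ := h2
          exact ⟨ball_subset_closedBall h1, h2'.le⟩
        · exact hcV.preimage_isClosed_of_isClosed isClosed_closedBall isClosed_Iic
      have hΦd : DifferentiableOn ℂ Φ (ball 0 1) := by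
        apply hH.mul
        apply DifferentiableOn.cexp
        apply DifferentiableOn.const_mul
        apply DifferentiableOn.const_sub
        exact hVd.div_const _
      have hΦc : DiffContOnCl ℂ Φ W :=
        (hΦd.mono (hWcl.trans (inter_subset_left.trans hsub))).diffContOnCl
      have hWb : Bornology.IsBounded W := isBounded_ball.subset inter_subset_left
      have hfr : ∀ z ∈ frontier W, ‖Φ z‖ ≤ C := by
        intro z hz
        obtain ⟨hz1, hz2⟩ := hWcl (frontier_subset_closure hz)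
        have hzn : z ∉ W := (hWo.frontier_eq ▸ hz).2
        have hz1' : ‖z‖ ≤ R := by simpa using hz1
        have hz2' : (V K z).re ≤ c₁ := hz2
        have hz3 : ‖z‖ < 1 := hz1'.trans_lt hR2
        rw [hnorm]
        rcases eq_or_lt_of_le hz2' with heq | hlt
        · rw [heq, div_self hc₁0.ne', sub_self, mul_zero, Real.exp_zero, mul_one]
          exact hC z hz3 hz2'
        · have hzR : ‖z‖ = R := by
            by_contra hne
            apply hzn
            exact ⟨by simpa using lt_of_le_of_ne hz1' hne, hlt⟩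
          have h1 := hη z (by rw [hzR]; exact hR4.le) hz3 hz2'
          have h2 : Real.exp (lam * (1 - (V K z).re / c₁)) ≤ Real.exp lam := by
            rw [Real.exp_le_exp]
            have : 0 ≤ (V K z).re / c₁ := div_nonneg (re_V_nonneg hK hz3) hc₁0.le
            nlinarith
          calc ‖H z‖ * Real.exp (lam * (1 - (V K z).re / c₁))
              ≤ (C * Real.exp (-lam)) * Real.exp lam := by gcongr
            _ = C := by rw [mul_assoc, ← Real.exp_add]; simp
      have hz₀W : z₀ ∈ closure W := subset_closure ⟨by simpa using hR3, hv₀⟩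
      have := Complex.norm_le_of_forall_mem_frontier_norm_le hWb hΦc hfr hz₀W
      rwa [hnorm] at this
    -- let lam → ∞
    by_contra hne
    have hHpos : 0 < ‖H z₀‖ := norm_pos_iff.mpr hne
    set q := 1 - (V K z₀).re / c₁ with hq
    have hq0 : 0 < q := by
      rw [hq, sub_pos, div_lt_one hc₁0]; exact hv₀
    have h1 := hkey (C / (‖H z₀‖ * q)) (by positivity)
    have h2 : C / (‖H z₀‖ * q) * q = C / ‖H z₀‖ := by field_simp
    rw [h2] at h1
    have h3 := Real.add_one_lt_exp (x := C / ‖H z₀‖) (by positivity)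
    have h4 : ‖H z₀‖ * (C / ‖H z₀‖ + 1) = C + ‖H z₀‖ := by field_simp
    nlinarith
  -- identity theorem
  obtain ⟨w, hw1, hw2⟩ := exists_re_V_lt hK hpos hc₁0
  have hHa : AnalyticOnNhd ℂ H (ball 0 1) := hH.analyticOnNhd isOpen_ball
  have hev : H =ᶠ[𝓝 w] 0 := by
    have h1 : ∀ᶠ z in 𝓝 w, z ∈ ball (0 : ℂ) 1 := isOpen_ball.mem_nhds (by simpa using hw1)
    have h2 : ∀ᶠ z in 𝓝 w, (V K z).re < c₁ := by
      have hc : ContinuousAt (fun z => (V K z).re) w :=
        Complex.continuous_re.continuousAt.comp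
          ((hVd.differentiableAt (isOpen_ball.mem_nhds (by simpa using hw1))).continuousAt)
      exact hc.eventually (gt_mem_nhds hw2)
    filter_upwards [h1, h2] with z h3 h4
    exact hvan z (by simpa using h3) h4
  exact hHa.eqOn_zero_of_preconnected_of_eventuallyEq_zero
    (convex_ball (0 : ℂ) 1).isPreconnected (by simpa using hw1) hev

/-- Rigidity: if the radial limits of `f'` equal `c` on a set of positive measure, then `f' = c`. -/
theorem rigidity {f : ℂ → ℂ} (hd : DifferentiableOn ℂ f (ball 0 1)) (hinj : InjOn f (ball 0 1))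
    {c : ℂ}
    (hpos : 0 < volume ({θ : ℝ | Tendsto (fun r : ℝ => deriv f (r * e θ)) (𝓝[<] 1) (𝓝 c)} ∩
      Ioc 0 (2 * π))) :
    ∀ z ∈ ball (0 : ℂ) 1, deriv f z = c := by
  have hd' : DifferentiableOn ℂ (deriv f) (ball 0 1) := hd.deriv isOpen_ball
  -- the closed sets
  let Kn : ℕ → ℕ → Set ℂ := fun k n => {ζ | ‖ζ‖ = 1 ∧ ∀ r : ℝ, r ∈ Ico (1 - 1 / ((n : ℝ) + 1)) 1 →
    ‖deriv f (r * ζ) - c‖ ≤ 1 / ((k : ℝ) + 1)}
  have hIco0 : ∀ (n : ℕ) (r : ℝ), r ∈ Ico (1 - 1 / ((n : ℝ) + 1)) 1 → 0 ≤ r := by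
    intro n r hr
    have : 1 / ((n : ℝ) + 1) ≤ 1 := by
      rw [div_le_one (by positivity)]
      have : (0 : ℝ) ≤ n := Nat.cast_nonneg n
      linarith
    linarith [hr.1]
  have hKn : ∀ k n, IsClosed (Kn k n) := by
    intro k n
    have h1 : Kn k n = sphere (0 : ℂ) 1 ∩ ⋂ r ∈ Ico (1 - 1 / ((n : ℝ) + 1)) 1,
        (sphere (0 : ℂ) 1 ∩ (fun ζ : ℂ => ‖deriv f (r * ζ) - c‖) ⁻¹' Iic (1 / ((k : ℝ) + 1))) := by
      ext ζ
      simp only [Kn, mem_ofPred_eq, mem_inter_iff, mem_sphere_zero_iff_norm, mem_iInter, mem_preimage,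
        mem_Iic]
      constructor
      · rintro ⟨h1, h2⟩
        exact ⟨h1, fun r hr => ⟨h1, h2 r hr⟩⟩
      · rintro ⟨h1, h2⟩
        exact ⟨h1, fun r hr => (h2 r hr).2⟩
    rw [h1]
    apply isClosed_sphere.inter
    apply isClosed_biInter
    intro r hr
    apply ContinuousOn.preimage_isClosed_of_isClosed _ isClosed_sphere isClosed_Iic
    apply ContinuousOn.norm
    apply ContinuousOn.sub _ continuousOn_const
    apply hd'.continuousOn.comp (by fun_prop)
    intro ζ hζ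
    rw [mem_sphere_zero_iff_norm] at hζ
    rw [mem_ball_zero_iff, norm_mul, hζ, mul_one, Complex.norm_real,
      Real.norm_of_nonneg (hIco0 n r hr)]
    exact hr.2
  set μ : Measure ℝ := volume.restrict (Ioc 0 (2 * π)) with hμ
  have hfin : IsFiniteMeasure μ := by
    rw [hμ]
    exact ⟨by rw [Measure.restrict_apply_univ]; exact measure_Ioc_lt_top⟩
  let B : ℕ → ℕ → Set ℝ := fun k n => {θ | e θ ∈ Kn k n}
  have hBm : ∀ k n, MeasurableSet (B k n) := fun k n =>
    ((hKn k n).preimage continuous_e).measurableSet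
  have hBmono : ∀ k, Monotone (B k) := by
    intro k n m hnm θ hθ
    refine ⟨hθ.1, fun r hr => hθ.2 r ⟨?_, hr.2⟩⟩
    have h1 : 1 / ((m : ℝ) + 1) ≤ 1 / ((n : ℝ) + 1) := by
      apply one_div_le_one_div_of_le (by positivity)
      have : (n : ℝ) ≤ m := by exact_mod_cast hnm
      linarith
    linarith [hr.1]
  set E : Set ℝ := ⋂ k, ⋃ n, B k n with hE
  have hEm : MeasurableSet E := MeasurableSet.iInter fun k => MeasurableSet.iUnion fun n => hBm k n
  have hEpos : 0 < μ E := by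
    refine lt_of_lt_of_le hpos ?_
    rw [hμ, Measure.restrict_apply hEm]
    apply measure_mono
    apply inter_subset_inter_left
    intro θ hθ
    rw [hE, mem_iInter]
    intro k
    rw [mem_iUnion]
    have hθ' : Tendsto (fun r : ℝ => deriv f (r * e θ)) (𝓝[<] 1) (𝓝 c) := hθ
    have h1 : ∀ᶠ r : ℝ in 𝓝[<] 1, deriv f (r * e θ) ∈ closedBall c (1 / ((k : ℝ) + 1)) :=
      hθ' (closedBall_mem_nhds c (by positivity))
    rw [eventually_nhdsWithin_iff, Metric.eventually_nhds_iff] at h1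
    obtain ⟨ε, hε, h2⟩ := h1
    obtain ⟨n, hn⟩ := exists_nat_one_div_lt hε
    refine ⟨n, norm_e θ, fun r hr => ?_⟩
    have h3 := h2 (y := r) (by
      rw [Real.dist_eq, abs_lt]
      constructor <;> linarith [hr.1, hr.2]) (by simpa using hr.2)
    rwa [mem_closedBall, dist_eq_norm] at h3
  -- choose the indices
  obtain ⟨δ, hδ0, hδ⟩ := ENNReal.exists_pos_sum_of_countable hEpos.ne' ℕ
  have hchoose : ∀ k, ∃ n, μ (E \ B k n) ≤ δ k := by
    intro k
    have h1 : Tendsto (fun n => μ (E \ B k n)) atTop (𝓝 (μ (⋂ n, E \ B k n))) := by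
      apply tendsto_measure_iInter_atTop
      · exact fun n => (hEm.diff (hBm k n)).nullMeasurableSet
      · intro n m hnm
        exact sdiff_subset_sdiff_right (hBmono k hnm)
      · exact ⟨0, measure_ne_top _ _⟩
    have h2 : (⋂ n, E \ B k n) = ∅ := by
      rw [← sdiff_iUnion]
      apply sdiff_eq_empty.mpr
      rw [hE]
      exact iInter_subset _ k
    rw [h2, measure_empty] at h1
    have h3 : ∀ᶠ n in atTop, μ (E \ B k n) < δ k :=
      h1.eventually (gt_mem_nhds (by exact_mod_cast hδ0 k))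
    obtain ⟨n, hn⟩ := h3.exists
    exact ⟨n, hn.le⟩
  choose N hN using hchoose
  set K : Set ℂ := ⋂ k, Kn k (N k) with hKdef
  have hKc : IsClosed K := isClosed_iInter fun k => hKn k (N k)
  have hKpos : 0 < volume ({θ : ℝ | e θ ∈ K} ∩ Ioc 0 (2 * π)) := by
    have hm : MeasurableSet {θ : ℝ | e θ ∈ K} := (hKc.preimage continuous_e).measurableSet
    rw [← Measure.restrict_apply hm, ← hμ]
    by_contra hcon
    have h0 : μ {θ : ℝ | e θ ∈ K} = 0 := by simpa using hcon
    have hsub : E ⊆ {θ : ℝ | e θ ∈ K} ∪ ⋃ k, E \ B k (N k) := by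
      intro θ hθ
      by_cases h : e θ ∈ K
      · exact Or.inl h
      · right
        rw [hKdef, mem_iInter, not_forall] at h
        obtain ⟨k, hk⟩ := h
        exact mem_iUnion.mpr ⟨k, hθ, hk⟩
    have h1 : μ E ≤ 0 + ∑' k, (δ k : ℝ≥0∞) := by
      calc μ E ≤ μ ({θ : ℝ | e θ ∈ K} ∪ ⋃ k, E \ B k (N k)) := measure_mono hsub
        _ ≤ μ {θ : ℝ | e θ ∈ K} + μ (⋃ k, E \ B k (N k)) := measure_union_le _ _
        _ ≤ 0 + ∑' k, μ (E \ B k (N k)) := by
            rw [h0]
            gcongr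
            exact measure_iUnion_le _
        _ ≤ 0 + ∑' k, (δ k : ℝ≥0∞) := by
            gcongr with k
            exact hN k
    rw [zero_add] at h1
    exact absurd hδ (not_lt.mpr h1)
  -- uniform radial convergence
  have hunif : ∀ η : ℝ, 0 < η → ∃ ρ : ℝ, ρ < 1 ∧ ∀ θ ∈ {θ : ℝ | e θ ∈ K}, ∀ r : ℝ, ρ ≤ r →
      r < 1 → ‖deriv f (r * Complex.exp (θ * Complex.I)) - c‖ ≤ η := by
    intro η hη
    obtain ⟨k, hk⟩ := exists_nat_one_div_lt hη
    refine ⟨1 - 1 / ((N k : ℝ) + 1), ?_, fun θ hθ r hr1 hr2 => ?_⟩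
    · have : 0 < 1 / ((N k : ℝ) + 1) := by positivity
      linarith
    · have h1 : e θ ∈ Kn k (N k) := mem_iInter.mp hθ k
      have h2 := h1.2 r ⟨hr1, hr2⟩
      rw [e_eq] at h2
      exact h2.trans hk.le
  have hdisc := radial_to_disc hd hinj hunif
  have hfinal := uniqueness (H := fun z => deriv f z - c) (hd'.sub_const c) hKc hKpos (by
    intro η hη
    obtain ⟨ρ, hρ, h⟩ := hdisc η hη
    refine ⟨ρ, hρ, fun θ hθ r hr1 hr2 z hz => ?_⟩
    apply h θ hθ r hr1 hr2 z
    rwa [e_eq] at hz)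
  intro z hz
  have := hfinal z hz
  simpa [sub_eq_zero] using this

end Pool.Agent.Lib.MP_5011cf_an
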