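import Mathlib
import Pool.Agent.Lib.MP_5011cf_an.Rigidity

open Metric Set Filter Topology MeasureTheory
open scoped Real ENNReal NNReal

namespace Pool.Agent.Lib.MP_5011cf_an

/-- Uniform radial convergence to zero of `f' - g'` on a set `F` of angles, with `f'`, `g'` bounded
on these radii, implies uniform convergence on small discs around the radii. -/
lemma radial_to_disc2 {f g : ℂ → ℂ} (hf : DifferentiableOn ℂ f (ball 0 1))
    (hfi : InjOn f (ball 0 1)) (hg : DifferentiableOn ℂ g (ball 0 1))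
    (hgi : InjOn g (ball 0 1)) {F : Set ℝ} {M₀ : ℝ}
    (hbd : ∃ ρ : ℝ, ρ < 1 ∧ ∀ θ ∈ F, ∀ r : ℝ, ρ ≤ r → r < 1 →
      ‖deriv f (r * e θ)‖ ≤ M₀ ∧ ‖deriv g (r * e θ)‖ ≤ M₀)
    (hF : ∀ η : ℝ, 0 < η → ∃ ρ : ℝ, ρ < 1 ∧ ∀ θ ∈ F, ∀ r : ℝ, ρ ≤ r → r < 1 →
      ‖deriv f (r * e θ) - deriv g (r * e θ)‖ ≤ η) :
    ∀ η : ℝ, 0 < η → ∃ ρ : ℝ, ρ < 1 ∧ ∀ θ ∈ F, ∀ r : ℝ, ρ ≤ r → r < 1 →
      ∀ z : ℂ, ‖z - r * e θ‖ ≤ (1 - r) / 4 → ‖deriv f z - deriv g z‖ ≤ η := by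
  intro η hη
  obtain ⟨ρ₁, hρ₁, h1⟩ := hbd
  set L := Real.exp 65536 with hL
  have hL0 : 0 < L := Real.exp_pos _
  set M := 2 * (|M₀| * L) + 1 with hM
  have hM0 : 0 < M := by positivity
  obtain ⟨lam, hlam0, hlam⟩ : ∃ lam : ℝ, 0 ≤ lam ∧ Real.exp (-(1 / 4 * lam)) * M ≤ η / 2 := by
    refine ⟨4 * max 0 (Real.log (2 * M / η)), by positivity, ?_⟩
    have e1 : -(1 / 4 * (4 * max 0 (Real.log (2 * M / η)))) = - max 0 (Real.log (2 * M / η)) := by
      ring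
    rw [e1]
    have e2 : Real.exp (- max 0 (Real.log (2 * M / η))) ≤ Real.exp (- Real.log (2 * M / η)) := by
      rw [Real.exp_le_exp]
      exact neg_le_neg (le_max_right _ _)
    rw [Real.exp_neg (Real.log (2 * M / η)), Real.exp_log (by positivity)] at e2
    calc Real.exp (- max 0 (Real.log (2 * M / η))) * M ≤ (2 * M / η)⁻¹ * M := by gcongr
      _ = η / 2 := by field_simp
  set δ := Real.exp (-(3 / 4 * lam)) * (η / 2) with hδ
  have hδ0 : 0 < δ := by positivity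
  obtain ⟨ρ₂, hρ₂, h2⟩ := hF δ hδ0
  refine ⟨max (max 0 ρ₁) ((2 * ρ₂ + 1) / 3), ?_, ?_⟩
  · rw [max_lt_iff, max_lt_iff]
    refine ⟨⟨one_pos, hρ₁⟩, by linarith⟩
  intro θ hθ r hr hr1 z hz
  have hr0 : 0 ≤ r := (le_max_left _ _).trans ((le_max_left _ _).trans hr)
  have hrρ₁ : ρ₁ ≤ r := (le_max_right _ _).trans ((le_max_left _ _).trans hr)
  have hrρ₂ : (2 * ρ₂ + 1) / 3 ≤ r := (le_max_right _ _).trans hr
  set ζ := e θ with hζ
  have hζ1 : ‖ζ‖ = 1 := norm_e θ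
  have hζ0 : ζ ≠ 0 := by
    intro h
    rw [h, norm_zero] at hζ1
    norm_num at hζ1
  have h1r : 0 < 1 - r := by linarith
  have hrζ : ‖(r : ℂ) * ζ‖ = r := by
    rw [norm_mul, hζ1, mul_one, Complex.norm_real, Real.norm_of_nonneg hr0]
  -- the rescaled function
  let ℓ : ℂ → ℂ := fun s => r * ζ + s * (((1 - r) / 2 : ℝ) * ζ)
  have hℓn : ∀ s : ℂ, ‖ℓ s - r * ζ‖ = ‖s‖ * ((1 - r) / 2) := by
    intro s
    simp only [ℓ, add_sub_cancel_left]
    rw [norm_mul, norm_mul, hζ1, mul_one, Complex.norm_real, Real.norm_of_nonneg (by linarith)]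
  have hℓb : ∀ s ∈ ball (0 : ℂ) 2, ℓ s ∈ ball (0 : ℂ) 1 := by
    intro s hs
    rw [mem_ball_zero_iff] at hs ⊢
    have e1 := hℓn s
    have e2 : ‖ℓ s‖ ≤ ‖(r : ℂ) * ζ‖ + ‖ℓ s - r * ζ‖ := norm_le_norm_add_norm_sub' _ _
    rw [e1, hrζ] at e2
    nlinarith
  have hGd : DifferentiableOn ℂ (fun s => deriv f (ℓ s) - deriv g (ℓ s)) (ball 0 2) := by
    apply DifferentiableOn.sub
    · apply (hf.deriv isOpen_ball).comp (by fun_prop) hℓb
    · apply (hg.deriv isOpen_ball).comp (by fun_prop) hℓb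
  have hG1 : ∀ s : ℂ, ‖s‖ ≤ 1 → ‖deriv f (ℓ s) - deriv g (ℓ s)‖ ≤ M := by
    intro s hs
    obtain ⟨e1, e1'⟩ := h1 θ hθ r hrρ₁ hr1
    rw [← hζ] at e1 e1'
    have hMabs : M₀ ≤ |M₀| := le_abs_self _
    have e3 := harnack hf hfi (z := r * ζ) (w := ℓ s) (by rw [hrζ]; exact hr1) (by
      rw [hℓn, hrζ]; nlinarith)
    have e4 := harnack hg hgi (z := r * ζ) (w := ℓ s) (by rw [hrζ]; exact hr1) (by
      rw [hℓn, hrζ]; nlinarith)
    rw [← hL] at e3 e4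
    have e5 : ‖deriv f (r * ζ)‖ * L ≤ |M₀| * L := by
      have := e1.trans hMabs
      gcongr
    have e6 : ‖deriv g (r * ζ)‖ * L ≤ |M₀| * L := by
      have := e1'.trans hMabs
      gcongr
    calc ‖deriv f (ℓ s) - deriv g (ℓ s)‖ ≤ ‖deriv f (ℓ s)‖ + ‖deriv g (ℓ s)‖ := norm_sub_le _ _
      _ ≤ M := by rw [hM]; linarith
  have hG2 : ∀ x : ℝ, |x| ≤ 1 → ‖deriv f (ℓ x) - deriv g (ℓ x)‖ ≤ δ := by
    intro x hx
    rw [abs_le] at hx
    have e1 : ℓ x = ((r + x * ((1 - r) / 2) : ℝ) : ℂ) * ζ := by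
      simp only [ℓ]
      push_cast
      ring
    rw [e1]
    apply h2 θ hθ
    · nlinarith [hx.1]
    · nlinarith [hx.2]
  have hs : ‖(z - r * ζ) / (((1 - r) / 2 : ℝ) * ζ)‖ ≤ 1 / 2 := by
    rw [norm_div, norm_mul, hζ1, mul_one, Complex.norm_real, Real.norm_of_nonneg (by linarith),
      div_le_iff₀ (by linarith)]
    linarith
  have hfin := two_constants hGd hM0.le hδ0.le hlam0 hG1 hG2 hs
  have hℓs : ℓ ((z - r * ζ) / (((1 - r) / 2 : ℝ) * ζ)) = z := by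
    simp only [ℓ]
    rw [div_mul_cancel₀]
    · ring
    · apply mul_ne_zero _ hζ0
      have : ((1 - r) / 2 : ℝ) ≠ 0 := by positivity
      exact_mod_cast this
  simp only [hℓs] at hfin
  refine hfin.trans ?_
  have e5 : Real.exp (3 / 4 * lam) * δ = η / 2 := by
    rw [hδ, ← mul_assoc, ← Real.exp_add]
    simp
  rw [e5]
  linarith

/-- Egorov-type selection. -/
lemma exists_selection (Cn : ℕ → ℕ → Set ℂ) (hcl : ∀ k n, IsClosed (Cn k n))
    (hmono : ∀ k, Monotone (Cn k))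
    (hpos : 0 < volume ({θ : ℝ | ∀ k, ∃ n, e θ ∈ Cn k n} ∩ Ioc 0 (2 * π))) :
    ∃ N : ℕ → ℕ, 0 < volume ({θ : ℝ | e θ ∈ ⋂ k, Cn k (N k)} ∩ Ioc 0 (2 * π)) := by
  set μ : Measure ℝ := volume.restrict (Ioc 0 (2 * π)) with hμ
  have hfin : IsFiniteMeasure μ := by
    rw [hμ]
    exact ⟨by rw [Measure.restrict_apply_univ]; exact measure_Ioc_lt_top⟩
  let B : ℕ → ℕ → Set ℝ := fun k n => {θ | e θ ∈ Cn k n}
  have hBm : ∀ k n, MeasurableSet (B k n) := fun k n =>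
    ((hcl k n).preimage continuous_e).measurableSet
  have hBmono : ∀ k, Monotone (B k) := fun k n m hnm θ hθ => hmono k hnm hθ
  set E : Set ℝ := ⋂ k, ⋃ n, B k n with hE
  have hEm : MeasurableSet E := MeasurableSet.iInter fun k => MeasurableSet.iUnion fun n => hBm k n
  have hEpos : 0 < μ E := by
    refine lt_of_lt_of_le hpos ?_
    rw [hμ, Measure.restrict_apply hEm]
    apply measure_mono
    apply inter_subset_inter_left
    intro θ hθ
    rw [hE, mem_iInter]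
    intro k
    rw [mem_iUnion]
    exact hθ k
  obtain ⟨δ, hδ0, hδ⟩ := ENNReal.exists_pos_sum_of_countable hEpos.ne' ℕ
  have hchoose : ∀ k, ∃ n, μ (E \ B k n) ≤ δ k := by
    intro k
    have h1 : Tendsto (fun n => μ (E \ B k n)) atTop (𝓝 (μ (⋂ n, E \ B k n))) := by
      apply tendsto_measure_iInter_atTop
      · exact fun n => (hEm.diff (hBm k n)).nullMeasurableSet
      · intro n m hnm
        exact sdiff_subset_sdiff_right (hBmono k hnm)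
      · exact ⟨0, measure_ne_top _ _⟩
    have h2 : (⋂ n, E \ B k n) = ∅ := by
      rw [← sdiff_iUnion]
      apply sdiff_eq_empty.mpr
      rw [hE]
      exact iInter_subset _ k
    rw [h2, measure_empty] at h1
    have h3 : ∀ᶠ n in atTop, μ (E \ B k n) < δ k :=
      h1.eventually (gt_mem_nhds (by exact_mod_cast hδ0 k))
    obtain ⟨n, hn⟩ := h3.exists
    exact ⟨n, hn.le⟩
  choose N hN using hchoose
  refine ⟨N, ?_⟩
  set K : Set ℂ := ⋂ k, Cn k (N k) with hKdef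
  have hKc : IsClosed K := isClosed_iInter fun k => hcl k (N k)
  have hm : MeasurableSet {θ : ℝ | e θ ∈ K} := (hKc.preimage continuous_e).measurableSet
  rw [← Measure.restrict_apply hm, ← hμ]
  by_contra hcon
  have h0 : μ {θ : ℝ | e θ ∈ K} = 0 := by simpa using hcon
  have hsub : E ⊆ {θ : ℝ | e θ ∈ K} ∪ ⋃ k, E \ B k (N k) := by
    intro θ hθ
    by_cases h : e θ ∈ K
    · exact Or.inl h
    · right
      rw [hKdef, mem_iInter, not_forall] at h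
      obtain ⟨k, hk⟩ := h
      exact mem_iUnion.mpr ⟨k, hθ, hk⟩
  have h1 : μ E ≤ 0 + ∑' k, (δ k : ℝ≥0∞) := by
    calc μ E ≤ μ ({θ : ℝ | e θ ∈ K} ∪ ⋃ k, E \ B k (N k)) := measure_mono hsub
      _ ≤ μ {θ : ℝ | e θ ∈ K} + μ (⋃ k, E \ B k (N k)) := measure_union_le _ _
      _ ≤ 0 + ∑' k, μ (E \ B k (N k)) := by
          rw [h0]
          gcongr
          exact measure_iUnion_le _
      _ ≤ 0 + ∑' k, (δ k : ℝ≥0∞) := by
          gcongr with k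
          exact hN k
  rw [zero_add] at h1
  exact absurd hδ (not_lt.mpr h1)

/-- Closedness of the level sets on the circle. -/
lemma isClosed_level {H : ℂ → ℝ} (hH : ContinuousOn H (ball 0 1)) (n : ℕ) (a : ℝ) :
    IsClosed {ζ : ℂ | ‖ζ‖ = 1 ∧ ∀ r : ℝ, r ∈ Ico (1 - 1 / ((n : ℝ) + 1)) 1 → H (r * ζ) ≤ a} := by
  have h1 : {ζ : ℂ | ‖ζ‖ = 1 ∧ ∀ r : ℝ, r ∈ Ico (1 - 1 / ((n : ℝ) + 1)) 1 → H (r * ζ) ≤ a}
      = sphere (0 : ℂ) 1 ∩ ⋂ r ∈ Ico (1 - 1 / ((n : ℝ) + 1)) 1,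
      (sphere (0 : ℂ) 1 ∩ (fun ζ : ℂ => H (r * ζ)) ⁻¹' Iic a) := by
    ext ζ
    simp only [mem_ofPred_eq, mem_inter_iff, mem_sphere_zero_iff_norm, mem_iInter, mem_preimage,
      mem_Iic]
    constructor
    · rintro ⟨h1, h2⟩
      exact ⟨h1, fun r hr => ⟨h1, h2 r hr⟩⟩
    · rintro ⟨h1, h2⟩
      exact ⟨h1, fun r hr => (h2 r hr).2⟩
  rw [h1]
  apply isClosed_sphere.inter
  apply isClosed_biInter
  intro r hr
  apply ContinuousOn.preimage_isClosed_of_isClosed _ isClosed_sphere isClosed_Iic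
  apply hH.comp (by fun_prop)
  intro ζ hζ
  have hr0 : 0 ≤ r := by
    have : 1 / ((n : ℝ) + 1) ≤ 1 := by
      rw [div_le_one (by positivity)]
      have : (0 : ℝ) ≤ n := Nat.cast_nonneg n
      linarith
    linarith [hr.1]
  rw [mem_sphere_zero_iff_norm] at hζ
  rw [mem_ball_zero_iff, norm_mul, hζ, mul_one, Complex.norm_real, Real.norm_of_nonneg hr0]
  exact hr.2

lemma Ico_mono {n m : ℕ} (h : n ≤ m) {r : ℝ} (hr : r ∈ Ico (1 - 1 / ((m : ℝ) + 1)) 1) :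
    r ∈ Ico (1 - 1 / ((n : ℝ) + 1)) 1 := by
  refine ⟨?_, hr.2⟩
  have h1 : 1 / ((m : ℝ) + 1) ≤ 1 / ((n : ℝ) + 1) := by
    apply one_div_le_one_div_of_le (by positivity)
    have : (n : ℝ) ≤ m := by exact_mod_cast h
    linarith
  linarith [hr.1]

/-- Uniqueness theorem for the derivatives of univalent functions: if the radial limits of `f'` and
`g'` exist and coincide on a set of positive measure, then `f' = g'`. -/
theorem uniqueness_univalent {f g : ℂ → ℂ} (hf : DifferentiableOn ℂ f (ball 0 1))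
    (hfi : InjOn f (ball 0 1)) (hg : DifferentiableOn ℂ g (ball 0 1))
    (hgi : InjOn g (ball 0 1))
    (hpos : 0 < volume ({θ : ℝ | ∃ c : ℂ, Tendsto (fun r : ℝ => deriv f (r * e θ)) (𝓝[<] 1) (𝓝 c) ∧
      Tendsto (fun r : ℝ => deriv g (r * e θ)) (𝓝[<] 1) (𝓝 c)} ∩ Ioc 0 (2 * π))) :
    ∀ z ∈ ball (0 : ℂ) 1, deriv f z = deriv g z := by
  have hf' : DifferentiableOn ℂ (deriv f) (ball 0 1) := hf.deriv isOpen_ball
  have hg' : DifferentiableOn ℂ (deriv g) (ball 0 1) := hg.deriv isOpen_ball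
  let Cn : ℕ → ℕ → Set ℂ := fun k n =>
    match k with
    | 0 => {ζ : ℂ | ‖ζ‖ = 1 ∧ ∀ r : ℝ, r ∈ Ico (1 - 1 / ((n : ℝ) + 1)) 1 →
        max ‖deriv f (r * ζ)‖ ‖deriv g (r * ζ)‖ ≤ (n : ℝ)}
    | k + 1 => {ζ : ℂ | ‖ζ‖ = 1 ∧ ∀ r : ℝ, r ∈ Ico (1 - 1 / ((n : ℝ) + 1)) 1 →
        ‖deriv f (r * ζ) - deriv g (r * ζ)‖ ≤ 1 / ((k : ℝ) + 1)}
  have hcl : ∀ k n, IsClosed (Cn k n) := by
    intro k n
    cases k with
    | zero =>
      exact isClosed_level (H := fun z => max ‖deriv f z‖ ‖deriv g z‖)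
        (hf'.continuousOn.norm.sup hg'.continuousOn.norm) n n
    | succ k =>
      exact isClosed_level (H := fun z => ‖deriv f z - deriv g z‖)
        (hf'.continuousOn.sub hg'.continuousOn).norm n (1 / ((k : ℝ) + 1))
  have hmono : ∀ k, Monotone (Cn k) := by
    intro k n m hnm ζ hζ
    cases k with
    | zero =>
      refine ⟨hζ.1, fun r hr => (hζ.2 r ?_).trans ?_⟩
      · exact ⟨(Ico_mono hnm (r := r) hr).1, hr.2⟩
      · exact_mod_cast hnm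
    | succ k =>
      exact ⟨hζ.1, fun r hr => hζ.2 r (Ico_mono hnm hr)⟩
  have hnear : ∀ {ε : ℝ}, 0 < ε → ∃ n₀ : ℕ, ∀ n : ℕ, n₀ ≤ n → ∀ r : ℝ,
      r ∈ Ico (1 - 1 / ((n : ℝ) + 1)) 1 → dist r 1 < ε ∧ r < 1 := by
    intro ε hε
    obtain ⟨n₀, hn₀⟩ := exists_nat_one_div_lt hε
    refine ⟨n₀, fun n hn r hr => ⟨?_, hr.2⟩⟩
    have hr' := Ico_mono hn hr
    rw [Real.dist_eq, abs_lt]
    constructor <;> linarith [hr'.1, hr'.2]
  have hpos' : 0 < volume ({θ : ℝ | ∀ k, ∃ n, e θ ∈ Cn k n} ∩ Ioc 0 (2 * π)) := by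
    refine hpos.trans_le (measure_mono (inter_subset_inter_left _ ?_))
    rintro θ ⟨c, hfc, hgc⟩ k
    cases k with
    | zero =>
      have h1 : ∀ᶠ r : ℝ in 𝓝[<] 1, deriv f (r * e θ) ∈ ball c 1 :=
        hfc (ball_mem_nhds c one_pos)
      have h2 : ∀ᶠ r : ℝ in 𝓝[<] 1, deriv g (r * e θ) ∈ ball c 1 :=
        hgc (ball_mem_nhds c one_pos)
      have h3 := h1.and h2
      rw [eventually_nhdsWithin_iff, Metric.eventually_nhds_iff] at h3
      obtain ⟨ε, hε, h4⟩ := h3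
      obtain ⟨n₀, hn₀⟩ := hnear hε
      obtain ⟨n₁, hn₁⟩ := exists_nat_ge (‖c‖ + 1)
      refine ⟨max n₀ n₁, norm_e θ, fun r hr => ?_⟩
      obtain ⟨h5, h6⟩ := hn₀ _ (le_max_left _ _) r hr
      obtain ⟨h7, h8⟩ := h4 h5 (by simpa using h6)
      rw [mem_ball, dist_eq_norm] at h7 h8
      have h9 : ‖c‖ + 1 ≤ ((max n₀ n₁ : ℕ) : ℝ) :=
        hn₁.trans (by exact_mod_cast le_max_right _ _)
      apply max_le
      · have := norm_le_norm_add_norm_sub' (deriv f (r * e θ)) c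
        linarith
      · have := norm_le_norm_add_norm_sub' (deriv g (r * e θ)) c
        linarith
    | succ k =>
      have h0 : Tendsto (fun r : ℝ => deriv f (r * e θ) - deriv g (r * e θ)) (𝓝[<] 1) (𝓝 0) := by
        simpa using hfc.sub hgc
      have h1 : ∀ᶠ r : ℝ in 𝓝[<] 1,
          deriv f (r * e θ) - deriv g (r * e θ) ∈ closedBall (0 : ℂ) (1 / ((k : ℝ) + 1)) :=
        h0 (closedBall_mem_nhds _ (by positivity))
      rw [eventually_nhdsWithin_iff, Metric.eventually_nhds_iff] at h1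
      obtain ⟨ε, hε, h4⟩ := h1
      obtain ⟨n₀, hn₀⟩ := hnear hε
      refine ⟨n₀, norm_e θ, fun r hr => ?_⟩
      obtain ⟨h5, h6⟩ := hn₀ _ le_rfl r hr
      have h7 := h4 h5 (by simpa using h6)
      rwa [mem_closedBall_zero_iff] at h7
  obtain ⟨N, hN⟩ := exists_selection Cn hcl hmono hpos'
  set K : Set ℂ := ⋂ k, Cn k (N k) with hKdef
  have hKc : IsClosed K := isClosed_iInter fun k => hcl k (N k)
  have hdisc := radial_to_disc2 hf hfi hg hgi (F := {θ : ℝ | e θ ∈ K}) (M₀ := N 0) (by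
    refine ⟨1 - 1 / ((N 0 : ℝ) + 1), ?_, fun θ hθ r hr1 hr2 => ?_⟩
    · have : 0 < 1 / ((N 0 : ℝ) + 1) := by positivity
      linarith
    · have h1 : e θ ∈ Cn 0 (N 0) := mem_iInter.mp hθ 0
      have h2 := h1.2 r ⟨hr1, hr2⟩
      exact ⟨(le_max_left _ _).trans h2, (le_max_right _ _).trans h2⟩) (by
    intro η hη
    obtain ⟨k, hk⟩ := exists_nat_one_div_lt hη
    refine ⟨1 - 1 / ((N (k + 1) : ℝ) + 1), ?_, fun θ hθ r hr1 hr2 => ?_⟩
    · have : 0 < 1 / ((N (k + 1) : ℝ) + 1) := by positivity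
      linarith
    · have h1 : e θ ∈ Cn (k + 1) (N (k + 1)) := mem_iInter.mp hθ (k + 1)
      exact (h1.2 r ⟨hr1, hr2⟩).trans hk.le)
  have hfinal := uniqueness (H := fun z => deriv f z - deriv g z) (hf'.sub hg') hKc hN (by
    intro η hη
    obtain ⟨ρ, hρ, h⟩ := hdisc η hη
    exact ⟨ρ, hρ, fun θ hθ r hr1 hr2 z hz => h θ hθ r hr1 hr2 z hz⟩)
  intro z hz
  have := hfinal z hz
  simpa [sub_eq_zero] using this

end Pool.Agent.Lib.MP_5011cf_an
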